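import Mathlib
import Pool.Agent.H68.Book.Core

set_option autoImplicit false
set_option linter.unusedSectionVars false
set_option linter.unusedVariables false

/-!
Uniform directions for Ramsey numbers, part 1: the potentials and their stability.
-/

namespace Pool.Agent.H95.UP

open Finset
open Pool.Agent.H68.Book

variable {V : Type*} [Fintype V] [DecidableEq V]

/-- The weighted sum of the `j`-th powers of the densities into `X`. -/
noncomputable def SJ (c : V → V → ℝ) (j : ℕ) (X : Finset V) (F : V → ℝ) : ℝ :=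
  ∑ v, F v * dens c X v ^ j

/-- The potential. -/
noncomputable def PJ (c : V → V → ℝ) (lam : ℝ) (j : ℕ) (X : Finset V) (F : V → ℝ) : ℝ :=
  (X.card : ℝ) ^ lam * SJ c j X F

/-- The gap in the tangent inequality of `x ↦ x ^ (m + 1)`. -/
noncomputable def BR (m : ℕ) (x y : ℝ) : ℝ :=
  y ^ (m + 1) - x ^ (m + 1) - (m + 1) * x ^ m * (y - x)

lemma BR_nonneg (m : ℕ) {x y : ℝ} (hx : 0 ≤ x) (hy : 0 ≤ y) : 0 ≤ BR m x y := by
  unfold BR
  induction m with
  | zero => simp
  | succ m ih =>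
      have h1 := mul_nonneg hy ih
      have h2 : 0 ≤ ((m : ℝ) + 1) * x ^ m * (y - x) ^ 2 := by positivity
      have h3 : y ^ (m + 1 + 1) - x ^ (m + 1 + 1) - ((m + 1 : ℕ) + 1) * x ^ (m + 1) * (y - x) =
          y * (y ^ (m + 1) - x ^ (m + 1) - (m + 1) * x ^ m * (y - x)) +
            ((m : ℝ) + 1) * x ^ m * (y - x) ^ 2 := by
        push_cast
        ring
      rw [h3]
      linarith

/-- The normalised form of the pointwise inequality. -/
lemma core_one (m : ℕ) {y : ℝ} (hy0 : 0 ≤ y) (hy1 : y ≤ 1) :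
    (1 - y ^ (m + 1)) ^ 2 ≤ 2 * (((m : ℝ) + 1) * (1 - y) - y * (1 - y ^ (m + 1))) := by
  induction m with
  | zero =>
      simp only [zero_add, pow_one, CharP.cast_eq_zero, one_mul]
      nlinarith [sq_nonneg (1 - y)]
  | succ m ih =>
      have hz0 : 0 ≤ y ^ (m + 1) := pow_nonneg hy0 _
      have h1 : y ^ (m + 1 + 1) = y ^ (m + 1) * y := pow_succ _ _
      rw [h1]
      set z := y ^ (m + 1)
      have h2 : 0 ≤ (1 - y) * ((1 + y) * (1 - z) ^ 2 + (1 - y)) := by
        apply mul_nonneg (by linarith)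
        have : 0 ≤ (1 + y) * (1 - z) ^ 2 := mul_nonneg (by linarith) (sq_nonneg _)
        linarith
      push_cast
      nlinarith

/-- The pointwise inequality, squared form. -/
lemma core_sq (m : ℕ) {x y : ℝ} (hy0 : 0 ≤ y) (hyx : y ≤ x) (hx : 0 < x) :
    (x ^ (m + 1) - y ^ (m + 1)) ^ 2 ≤ 2 * x ^ m * BR (m + 1) x y := by
  set e := y / x with he
  have hye : y = e * x := by rw [he]; field_simp
  have he0 : 0 ≤ e := by positivity
  have he1 : e ≤ 1 := by rw [he, div_le_one hx]; exact hyx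
  have h1 := core_one m he0 he1
  have h2 : 0 ≤ x ^ (2 * m + 2) := by positivity
  have h3 := mul_le_mul_of_nonneg_left h1 h2
  have h4 : x ^ (2 * m + 2) * (1 - e ^ (m + 1)) ^ 2 = (x ^ (m + 1) - y ^ (m + 1)) ^ 2 := by
    rw [hye, mul_pow]
    have : x ^ (2 * m + 2) = (x ^ (m + 1)) ^ 2 := by rw [← pow_mul]; ring_nf
    rw [this]
    ring
  have h5 : x ^ (2 * m + 2) * (2 * (((m : ℝ) + 1) * (1 - e) - e * (1 - e ^ (m + 1)))) =
      2 * x ^ m * BR (m + 1) x y := by
    unfold BR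
    rw [hye, mul_pow]
    have h6 : x ^ (2 * m + 2) = x ^ m * x ^ (m + 1 + 1) := by rw [← pow_add]; ring_nf
    have h7 : x ^ (m + 1 + 1) = x ^ (m + 1) * x := pow_succ _ _
    have h8 : e ^ (m + 1 + 1) = e ^ (m + 1) * e := pow_succ _ _
    rw [h6, h8, h7]
    push_cast
    ring
  rw [h4, h5] at h3
  exact h3

/-- The pointwise inequality. -/
lemma core_pt (m : ℕ) {x y mu : ℝ} (hx0 : 0 ≤ x) (hy0 : 0 ≤ y) (hmu : 0 < mu) :
    x ^ (m + 1) - y ^ (m + 1) ≤ 1 / mu * BR (m + 1) x y + mu / 2 * x ^ m := by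
  have hB := BR_nonneg (m + 1) hx0 hy0
  have hxm : 0 ≤ x ^ m := pow_nonneg hx0 _
  have hR : 0 ≤ 1 / mu * BR (m + 1) x y + mu / 2 * x ^ m := by positivity
  rcases le_total x y with h | h
  · have : x ^ (m + 1) ≤ y ^ (m + 1) := pow_le_pow_left₀ hx0 h _
    linarith
  · rcases hx0.eq_or_lt with h0 | h0
    · have hy : y = 0 := le_antisymm (by rw [h0]; exact h) hy0
      rw [← h0, hy]
      rw [← h0, hy] at hR
      simpa using hR
    · have h1 := core_sq m hy0 h h0
      have h2 : (x ^ (m + 1) - y ^ (m + 1)) ^ 2 ≤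
          (1 / mu * BR (m + 1) x y + mu / 2 * x ^ m) ^ 2 := by
        have h3 : (1 / mu * BR (m + 1) x y + mu / 2 * x ^ m) ^ 2 =
            (1 / mu * BR (m + 1) x y - mu / 2 * x ^ m) ^ 2 + 2 * x ^ m * BR (m + 1) x y := by
          field_simp
          ring
        rw [h3]
        linarith [sq_nonneg (1 / mu * BR (m + 1) x y - mu / 2 * x ^ m)]
      exact le_of_sq_le_sq h2 hR

lemma SJ_nonneg {c : V → V → ℝ} (h0 : ∀ v w, 0 ≤ c v w) {j : ℕ} {X : Finset V} {F : V → ℝ}
    (hF : ∀ v, 0 ≤ F v) : 0 ≤ SJ c j X F :=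
  sum_nonneg fun v _ => mul_nonneg (hF v) (pow_nonneg (dens_nonneg h0 X v) _)

lemma PJ_nonneg {c : V → V → ℝ} (h0 : ∀ v w, 0 ≤ c v w) {lam : ℝ} {j : ℕ} {X : Finset V}
    {F : V → ℝ} (hF : ∀ v, 0 ≤ F v) : 0 ≤ PJ c lam j X F :=
  mul_nonneg (Real.rpow_nonneg (Nat.cast_nonneg _) _) (SJ_nonneg h0 hF)

lemma SJ_le_sum {c : V → V → ℝ} (h0 : ∀ v w, 0 ≤ c v w) (h1 : ∀ v w, c v w ≤ 1) {j : ℕ}
    {X : Finset V} {F : V → ℝ} (hF : ∀ v, 0 ≤ F v) : SJ c j X F ≤ ∑ v, F v := by
  refine sum_le_sum fun v _ => ?_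
  have h2 : dens c X v ^ j ≤ 1 := pow_le_one₀ (dens_nonneg h0 X v) (dens_le_one h1 X v)
  calc F v * dens c X v ^ j ≤ F v * 1 := mul_le_mul_of_nonneg_left h2 (hF v)
    _ = F v := mul_one _

lemma dens_split {c : V → V → ℝ} {X A : Finset V} (hA : A ⊆ X) (v : V) :
    (X.card : ℝ) * dens c X v =
      (A.card : ℝ) * dens c A v + ((X \ A).card : ℝ) * dens c (X \ A) v := by
  rw [H68.Book.card_mul_dens, H68.Book.card_mul_dens, H68.Book.card_mul_dens, add_comm]
  exact (sum_sdiff hA).symm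

/-- Convexity with gain. -/
lemma gain {c : V → V → ℝ} (h0 : ∀ v w, 0 ≤ c v w) (m : ℕ) {X A : Finset V} (hA : A ⊆ X)
    {F : V → ℝ} (hF : ∀ v, 0 ≤ F v) :
    (X.card : ℝ) * SJ c (m + 1) X F + (A.card : ℝ) *
      ∑ v, F v * BR m (dens c X v) (dens c A v) ≤
    (A.card : ℝ) * SJ c (m + 1) A F + ((X \ A).card : ℝ) * SJ c (m + 1) (X \ A) F := by
  unfold SJ
  rw [mul_sum, mul_sum, mul_sum, mul_sum, ← sum_add_distrib, ← sum_add_distrib]
  refine sum_le_sum fun v _ => ?_
  have h2 := BR_nonneg m (dens_nonneg h0 X v) (dens_nonneg h0 (X \ A) v)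
  have h3 := dens_split (c := c) hA v
  have h4 : ((X \ A).card : ℝ) + A.card = X.card := by
    exact_mod_cast card_sdiff_add_card_eq_card hA
  have hb : (0 : ℝ) ≤ ((X \ A).card : ℝ) := Nat.cast_nonneg _
  unfold BR at h2 ⊢
  set x := dens c X v
  set y := dens c A v
  set z := dens c (X \ A) v
  set a : ℝ := (A.card : ℝ)
  set b : ℝ := ((X \ A).card : ℝ)
  have h5 := mul_nonneg hb h2
  have h6 : a * y + b * z - (b + a) * x = 0 := by rw [h4]; linarith
  have key : a * y ^ (m + 1) + b * z ^ (m + 1) - ((X.card : ℝ) * x ^ (m + 1) +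
      a * (y ^ (m + 1) - x ^ (m + 1) - (m + 1) * x ^ m * (y - x))) =
      b * (z ^ (m + 1) - x ^ (m + 1) - (m + 1) * x ^ m * (z - x)) +
        (m + 1) * x ^ m * (a * y + b * z - (b + a) * x) := by
    rw [← h4]
    ring
  rw [h6, mul_zero, add_zero] at key
  have h7 := mul_nonneg (hF v) (key ▸ h5)
  nlinarith

/-- The upper bound from maximality. -/
lemma SJ_le_of_max {c : V → V → ℝ} {lam : ℝ} {j : ℕ} {X A : Finset V} (hX : X.Nonempty)
    (hA : A.Nonempty) {F : V → ℝ} (hmax : PJ c lam j A F ≤ PJ c lam j X F) :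
    SJ c j A F ≤ ((A.card : ℝ) / X.card) ^ (-lam) * SJ c j X F := by
  unfold PJ at hmax
  have ha : (0 : ℝ) < A.card := by exact_mod_cast hA.card_pos
  have hx : (0 : ℝ) < X.card := by exact_mod_cast hX.card_pos
  have h1 : (0 : ℝ) < (A.card : ℝ) ^ lam := Real.rpow_pos_of_pos ha _
  have h2 : ((A.card : ℝ) / X.card) ^ (-lam) = (X.card : ℝ) ^ lam / (A.card : ℝ) ^ lam := by
    rw [Real.rpow_neg (by positivity), Real.div_rpow ha.le hx.le, inv_div]
  rw [h2, div_mul_eq_mul_div, le_div_iff₀ h1]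
  linarith

/-- Stability, abstract form. -/
lemma stab_abs {lam x a b S SA SB D : ℝ} (hl0 : 0 ≤ lam) (hl1 : lam ≤ 1) (ha : 0 < a)
    (hb : 0 < b) (hsum : b + a = x) (hS : 0 ≤ S)
    (hg : x * S + a * D ≤ a * SA + b * SB) (h1 : SA ≤ (a / x) ^ (-lam) * S)
    (h2 : SB ≤ (b / x) ^ (-lam) * S) (hlt : lam * Real.log (x / a) ≤ 1) :
    D ≤ lam * (1 + 2 * Real.log (x / a)) * S := by
  have hxpos : 0 < x := by linarith
  set t : ℝ := a / x with ht
  have htpos : 0 < t := by positivity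
  have hta : t * x = a := by rw [ht]; field_simp
  have ht1 : t < 1 := by
    rw [ht, div_lt_one hxpos]; linarith
  have hsb : b / x = 1 - t := by
    rw [ht]; field_simp; linarith
  have hxt : x / a = 1 / t := by rw [ht]; field_simp
  rw [hxt] at hlt ⊢
  have hlog : 0 ≤ Real.log (1 / t) := by
    apply Real.log_nonneg
    rw [le_div_iff₀ htpos]; linarith
  have p1 : t ^ (-lam) ≤ 1 + 2 * (lam * Real.log (1 / t)) := by
    have e1 : t ^ (-lam) = Real.exp (lam * Real.log (1 / t)) := by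
      rw [Real.rpow_def_of_pos htpos, one_div, Real.log_inv]
      ring_nf
    have e4 : 0 ≤ lam * Real.log (1 / t) := mul_nonneg hl0 hlog
    rw [e1]
    set y := lam * Real.log (1 / t)
    have h3 := Real.abs_exp_sub_one_sub_id_le (x := y) (by rw [abs_of_nonneg e4]; exact hlt)
    have h4 := (abs_le.1 h3).2
    nlinarith
  have p2 : (b / x) ^ (-lam) * (b / x) ≤ 1 - (1 - lam) * t := by
    rw [hsb]
    have h1t : 0 < 1 - t := by linarith
    have e1 : (1 - t) ^ (-lam) * (1 - t) = (1 - t) ^ (1 - lam) := by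
      have := Real.rpow_add h1t (-lam) 1
      rw [Real.rpow_one] at this
      rw [← this]
      congr 1
      ring
    rw [e1]
    have := rpow_one_add_le_one_add_mul_self (s := -t) (by linarith)
      (p := 1 - lam) (by linarith) (by linarith)
    calc (1 - t) ^ (1 - lam) = (1 + -t) ^ (1 - lam) := by ring_nf
      _ ≤ 1 + (1 - lam) * -t := this
      _ = _ := by ring
  have q1 : a * SA ≤ x * (t * (1 + 2 * (lam * Real.log (1 / t))) * S) := by
    calc a * SA ≤ a * (t ^ (-lam) * S) := mul_le_mul_of_nonneg_left h1 ha.le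
      _ ≤ a * ((1 + 2 * (lam * Real.log (1 / t))) * S) := by
          apply mul_le_mul_of_nonneg_left _ ha.le
          exact mul_le_mul_of_nonneg_right p1 hS
      _ = _ := by rw [← hta]; ring
  have q2 : b * SB ≤ x * ((1 - (1 - lam) * t) * S) := by
    have hbx : b = x * (b / x) := by field_simp
    calc b * SB ≤ b * ((b / x) ^ (-lam) * S) := mul_le_mul_of_nonneg_left h2 hb.le
      _ = x * (((b / x) ^ (-lam) * (b / x)) * S) := by
          conv_lhs => rw [hbx]
          have : x * (b / x) / x = b / x := by field_simp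
          rw [this]
          ring
      _ ≤ x * ((1 - (1 - lam) * t) * S) := by
          apply mul_le_mul_of_nonneg_left _ hxpos.le
          exact mul_le_mul_of_nonneg_right p2 hS
  have q4 : a * D ≤ a * (lam * (1 + 2 * Real.log (1 / t)) * S) := by
    have : a * (lam * (1 + 2 * Real.log (1 / t)) * S) =
        x * (t * (1 + 2 * (lam * Real.log (1 / t))) * S) +
          x * ((1 - (1 - lam) * t) * S) - x * S := by
      rw [← hta]; ring
    linarith
  exact le_of_mul_le_mul_left q4 ha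

/-- Stability. -/
lemma stab {c : V → V → ℝ} (h0 : ∀ v w, 0 ≤ c v w) {lam : ℝ} (hl0 : 0 ≤ lam) (hl1 : lam ≤ 1)
    (m : ℕ) {X A : Finset V} (hA : A ⊆ X) (hX : X.Nonempty)
    (hAne : A.Nonempty) {F : V → ℝ} (hF : ∀ v, 0 ≤ F v)
    (hmax : ∀ B : Finset V, B ⊆ X → B.Nonempty → PJ c lam (m + 1) B F ≤ PJ c lam (m + 1) X F)
    (hlt : lam * Real.log ((X.card : ℝ) / A.card) ≤ 1) :
    ∑ v, F v * BR m (dens c X v) (dens c A v) ≤
      lam * (1 + 2 * Real.log ((X.card : ℝ) / A.card)) * SJ c (m + 1) X F := by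
  have hxpos : (0 : ℝ) < X.card := by exact_mod_cast hX.card_pos
  have hapos : (0 : ℝ) < A.card := by exact_mod_cast hAne.card_pos
  have hS : 0 ≤ SJ c (m + 1) X F := SJ_nonneg h0 hF
  rcases (X \ A).eq_empty_or_nonempty with h | hB
  · have hEq : A = X := Subset.antisymm hA (sdiff_eq_empty_iff_subset.1 h)
    subst hEq
    have : ∑ v, F v * BR m (dens c A v) (dens c A v) = 0 := by
      refine sum_eq_zero fun v _ => ?_
      simp [BR]
    rw [this, div_self hapos.ne', Real.log_one]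
    positivity
  · have hbpos : (0 : ℝ) < (X \ A).card := by exact_mod_cast hB.card_pos
    have hsum : ((X \ A).card : ℝ) + A.card = X.card := by
      exact_mod_cast card_sdiff_add_card_eq_card hA
    exact stab_abs hl0 hl1 hapos hbpos hsum hS (gain h0 m hA hF)
      (SJ_le_of_max hX hAne (hmax A hA hAne))
      (SJ_le_of_max hX hB (hmax (X \ A) sdiff_subset hB)) hlt

end Pool.Agent.H95.UP
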