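import Mathlib
import Pool.Agent.H95.UP.Stab

set_option autoImplicit false
set_option linter.unusedSectionVars false
set_option linter.unusedVariables false

/-!
Uniform directions for Ramsey numbers, part 2: the red step.
-/

namespace Pool.Agent.H95.UP

open Finset
open Pool.Agent.H68.Book

variable {V : Type*} [Fintype V] [DecidableEq V]

/-- Every set with at least `m0` vertices has a vertex with many neighbours inside the set. -/
def Rich (G : SimpleGraph V) [DecidableRel G.Adj] (tau m0 : ℝ) : Prop :=
  ∀ U : Finset V, U.Nonempty → m0 ≤ U.card →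
    ∃ u ∈ U, tau * U.card ≤ ((U.filter (fun w => G.Adj u w)).card : ℝ)

lemma sum_log_le (N : ℕ) {tau : ℝ} (htau : 0 < tau) (hN : 0 < N) :
    ∑ i ∈ range N, Real.log ((N : ℝ) / (tau * (i + 1))) ≤ (1 + Real.log (1 / tau)) * N := by
  have hNR : (0 : ℝ) < N := by exact_mod_cast hN
  have h1 : ∑ i ∈ range N, Real.log ((N : ℝ) / (tau * (i + 1))) =
      N * Real.log (1 / tau) + (N * Real.log N - Real.log (N.factorial)) := by
    have h2 : ∀ i ∈ range N, Real.log ((N : ℝ) / (tau * (i + 1))) =
        (Real.log (1 / tau) + Real.log N) - Real.log ((i + 1 : ℕ) : ℝ) := by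
      intro i _
      have hi : (0 : ℝ) < (i : ℝ) + 1 := by positivity
      rw [Real.log_div hNR.ne' (by positivity), Real.log_mul htau.ne' hi.ne', one_div,
        Real.log_inv]
      push_cast
      ring
    rw [sum_congr rfl h2, sum_sub_distrib, sum_const, card_range, nsmul_eq_mul]
    have h3 : ∑ i ∈ range N, Real.log ((i + 1 : ℕ) : ℝ) = Real.log (N.factorial) := by
      rw [← Finset.prod_range_add_one_eq_factorial]
      push_cast
      rw [Real.log_prod]
      intro i _
      positivity
    rw [h3]
    ring
  rw [h1]
  have h4 : (N : ℝ) ^ N / N.factorial ≤ Real.exp N := Real.pow_div_factorial_le_exp _ hNR.le N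
  have h5 : N * Real.log N - Real.log (N.factorial) ≤ N := by
    have hf : (0 : ℝ) < N.factorial := by exact_mod_cast N.factorial_pos
    have h6 : Real.log ((N : ℝ) ^ N / N.factorial) ≤ N := by
      rw [Real.log_le_iff_le_exp (by positivity)]
      exact h4
    rw [Real.log_div (by positivity) hf.ne', Real.log_pow] at h6
    exact h6
  linarith

/-- The average logarithm of the relative degrees. -/
lemma avg_log (G : SimpleGraph V) [DecidableRel G.Adj] {tau m0 s0 : ℝ} (htau : 0 < tau)
    (htau1 : tau ≤ 1) (hs0 : 0 < s0) (hs1 : s0 ≤ 1) (hm0 : 0 ≤ m0)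
    (hrich : Rich G tau m0) {X : Finset V} (hX : X.Nonempty) :
    ∀ (n : ℕ) (U : Finset V), U.card = n → U ⊆ X →
      (∀ u ∈ U, s0 * X.card ≤ ((X.filter (fun w => G.Adj u w)).card : ℝ)) →
      ∑ u ∈ U, Real.log ((X.card : ℝ) / (X.filter (fun w => G.Adj u w)).card) ≤
        ∑ i ∈ range n, Real.log ((X.card : ℝ) / (tau * (i + 1))) + m0 * Real.log (1 / s0) := by
  have hxpos : (0 : ℝ) < X.card := by exact_mod_cast hX.card_pos
  have hls : 0 ≤ Real.log (1 / s0) := by
    apply Real.log_nonneg
    rw [le_div_iff₀ hs0]; linarith
  intro n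
  induction n with
  | zero =>
      intro U hU _ _
      rw [card_eq_zero] at hU
      subst hU
      simp only [sum_empty, range_zero]
      positivity
  | succ n ih =>
      intro U hU hUX hgood
      have hUne : U.Nonempty := by rw [← card_pos]; omega
      have hnX : ((n : ℝ) + 1) ≤ X.card := by
        have := card_le_card hUX
        rw [hU] at this
        exact_mod_cast this
      rcases le_or_gt m0 ((n : ℝ) + 1) with hm | hm
      · obtain ⟨u, hu, hdeg⟩ := hrich U hUne (by rw [hU]; push_cast; exact hm)
        rw [hU] at hdeg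
        push_cast at hdeg
        have h1 : ((U.filter (fun w => G.Adj u w)).card : ℝ) ≤
            ((X.filter (fun w => G.Adj u w)).card : ℝ) := by
          exact_mod_cast card_le_card (filter_subset_filter _ hUX)
        have h2 := ih (U.erase u) (by rw [card_erase_of_mem hu]; omega)
          ((erase_subset _ _).trans hUX) (fun w hw => hgood w (mem_of_mem_erase hw))
        rw [← add_sum_erase U _ hu, sum_range_succ]
        have hpos : (0 : ℝ) < tau * ((n : ℝ) + 1) := by positivity
        have h3 : Real.log ((X.card : ℝ) / (X.filter (fun w => G.Adj u w)).card) ≤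
            Real.log ((X.card : ℝ) / (tau * (n + 1))) := by
          apply Real.log_le_log
          · apply div_pos hxpos
            linarith
          · exact div_le_div_of_nonneg_left hxpos.le hpos (hdeg.trans h1)
        linarith
      · have h1 : ∑ u ∈ U, Real.log ((X.card : ℝ) / (X.filter (fun w => G.Adj u w)).card) ≤
            ∑ _u ∈ U, Real.log (1 / s0) := by
          refine sum_le_sum fun u hu => ?_
          have h2 := hgood u hu
          have h3 : (0 : ℝ) < s0 * X.card := by positivity
          apply Real.log_le_log
          · apply div_pos hxpos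
            linarith
          · rw [div_le_div_iff₀ (by linarith) hs0]
            linarith
        rw [sum_const, hU, nsmul_eq_mul] at h1
        push_cast at h1
        have h4 : ((n : ℝ) + 1) * Real.log (1 / s0) ≤ m0 * Real.log (1 / s0) :=
          mul_le_mul_of_nonneg_right hm.le hls
        have h5 : 0 ≤ ∑ i ∈ range (n + 1), Real.log ((X.card : ℝ) / (tau * (i + 1))) := by
          apply sum_nonneg
          intro i hi
          rw [mem_range] at hi
          apply Real.log_nonneg
          rw [le_div_iff₀ (by positivity), one_mul]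
          have hi' : ((i : ℝ) + 1) ≤ n + 1 := by
            have : i + 1 ≤ n + 1 := hi
            exact_mod_cast this
          calc tau * ((i : ℝ) + 1) ≤ 1 * ((i : ℝ) + 1) :=
                mul_le_mul_of_nonneg_right htau1 (by positivity)
            _ ≤ X.card := by linarith
        linarith

/-- Small powers of `lam`. -/
lemma lam_log {lam : ℝ} (hl : 0 < lam) : lam * Real.log (1 / lam) ≤ Real.sqrt lam := by
  have hs : 0 < Real.sqrt lam := Real.sqrt_pos.2 hl
  have h1 : Real.log (1 / lam) = 2 * Real.log (1 / Real.sqrt lam) := by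
    have : 1 / lam = (1 / Real.sqrt lam) ^ 2 := by
      rw [div_pow, one_pow, Real.sq_sqrt hl.le]
    rw [this, Real.log_pow]
    push_cast
    ring
  have h2 : Real.log (1 / Real.sqrt lam) ≤ 1 / (2 * Real.sqrt lam) := by
    have h3 := Real.add_one_le_exp (1 / (2 * Real.sqrt lam) - 1 / 2)
    have h4 : Real.log (1 / Real.sqrt lam) = Real.log (2 * (1 / (2 * Real.sqrt lam))) := by
      congr 1
      field_simp
    rw [h4]
    set y := 1 / (2 * Real.sqrt lam) with hy
    have hy0 : 0 < y := by positivity
    rw [Real.log_mul (by norm_num) hy0.ne']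
    have h5 := Real.log_le_sub_one_of_pos hy0
    linarith [Real.log_two_lt_d9]
  rw [h1]
  calc lam * (2 * Real.log (1 / Real.sqrt lam)) ≤ lam * (2 * (1 / (2 * Real.sqrt lam))) := by
        apply mul_le_mul_of_nonneg_left _ hl.le
        linarith
    _ = Real.sqrt lam := by
        rw [show lam * (2 * (1 / (2 * Real.sqrt lam))) = lam / Real.sqrt lam by field_simp,
          Real.div_sqrt]

end Pool.Agent.H95.UP
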