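import Mathlib
import Pool.Agent.H95.UP.Step

set_option autoImplicit false
set_option linter.unusedSectionVars false
set_option linter.unusedVariables false

/-!
Uniform directions for Ramsey numbers, part 3: the red step.
-/

namespace Pool.Agent.H95.UP

open Finset
open Pool.Agent.H68.Book

variable {V : Type*} [Fintype V] [DecidableEq V]

/-- Summation over the vertices of `X`. -/
lemma sum_col (c : V → V → ℝ) (X : Finset V) (H : V → ℝ) :
    ∑ u ∈ X, ∑ v, H v * c v u = (X.card : ℝ) * ∑ v, H v * dens c X v := by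
  rw [sum_comm, mul_sum]
  refine sum_congr rfl fun v _ => ?_
  rw [← mul_sum, ← H68.Book.card_mul_dens]
  ring

/-- The sum over a small set of vertices. -/
lemma bad_sum {c : V → V → ℝ} (h0 : ∀ v w, 0 ≤ c v w) {lam : ℝ} (hl0 : 0 < lam)
    (hl1 : lam ≤ 1 / 2) (m : ℕ) {X Y : Finset V} (hY : Y ⊆ X) (hX : X.Nonempty)
    {F : V → ℝ} (hF : ∀ v, 0 ≤ F v)
    (hmax : ∀ B : Finset V, B ⊆ X → B.Nonempty → PJ c lam (m + 2) B F ≤ PJ c lam (m + 2) X F)
    (hcard : (Y.card : ℝ) ≤ lam ^ 2 * X.card) :
    ∑ u ∈ Y, ∑ v, (F v * dens c X v ^ (m + 1)) * c v u ≤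
      2 * lam * ((X.card : ℝ) * SJ c (m + 2) X F) := by
  have hxpos : (0 : ℝ) < X.card := by exact_mod_cast hX.card_pos
  have hS : 0 ≤ SJ c (m + 2) X F := SJ_nonneg h0 hF
  rcases Y.eq_empty_or_nonempty with rfl | hYne
  · simp only [sum_empty]
    positivity
  have hypos : (0 : ℝ) < Y.card := by exact_mod_cast hYne.card_pos
  rw [sum_col]
  have h1 : ∑ v, F v * dens c X v ^ (m + 1) * dens c Y v ≤ SJ c (m + 2) X F + SJ c (m + 2) Y F := by
    unfold SJ
    rw [← sum_add_distrib]
    refine sum_le_sum fun v _ => ?_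
    have hx := dens_nonneg h0 X v
    have hy := dens_nonneg h0 Y v
    set x := dens c X v
    set y := dens c Y v
    have h2 : x ^ (m + 1) * y ≤ x ^ (m + 2) + y ^ (m + 2) := by
      have e1 : x ^ (m + 2) = x ^ (m + 1) * x := pow_succ _ _
      have e2 : y ^ (m + 2) = y ^ (m + 1) * y := pow_succ _ _
      have e3 : 0 ≤ x ^ (m + 1) := pow_nonneg hx _
      have e4 : 0 ≤ y ^ (m + 1) := pow_nonneg hy _
      rcases le_total y x with h | h
      · have := mul_le_mul_of_nonneg_left h e3
        rw [e1, e2]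
        nlinarith [mul_nonneg e4 hy]
      · have := mul_le_mul_of_nonneg_right (pow_le_pow_left₀ hx h (m + 1)) hy
        rw [e1, e2]
        nlinarith [mul_nonneg e3 hx]
    have := mul_le_mul_of_nonneg_left h2 (hF v)
    nlinarith
  have h2 := SJ_le_of_max hX hYne (hmax Y hY hYne)
  set S := SJ c (m + 2) X F
  set s : ℝ := (Y.card : ℝ) / X.card with hs
  have hspos : 0 < s := by positivity
  have hsl : s ≤ lam ^ 2 := by rw [hs, div_le_iff₀ hxpos]; exact hcard
  have hys : (Y.card : ℝ) = X.card * s := by rw [hs]; field_simp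
  have h3 : s ^ (-lam) * s ≤ lam := by
    have e1 : s ^ (-lam) * s = s ^ (1 - lam) := by
      have := Real.rpow_add hspos (-lam) 1
      rw [Real.rpow_one] at this
      rw [← this]
      congr 1
      ring
    rw [e1]
    calc s ^ (1 - lam) ≤ (lam ^ 2) ^ (1 - lam) :=
          Real.rpow_le_rpow hspos.le hsl (by linarith)
      _ = lam ^ (2 * (1 - lam)) := by
          rw [← Real.rpow_natCast lam 2, ← Real.rpow_mul hl0.le]
          norm_num
      _ ≤ lam ^ (1 : ℝ) := by
          apply Real.rpow_le_rpow_of_exponent_ge hl0 (by linarith)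
          linarith
      _ = lam := Real.rpow_one _
  have h4 : s ≤ lam := by nlinarith
  calc (Y.card : ℝ) * ∑ v, F v * dens c X v ^ (m + 1) * dens c Y v
      ≤ (X.card * s) * (S + s ^ (-lam) * S) := by
        rw [← hys]
        exact mul_le_mul_of_nonneg_left (by linarith) hypos.le
    _ = X.card * S * (s + s ^ (-lam) * s) := by ring
    _ ≤ X.card * S * (lam + lam) :=
        mul_le_mul_of_nonneg_left (by linarith) (mul_nonneg hxpos.le hS)
    _ = _ := by ring

/-- **Red step.** -/
lemma red_step (G : SimpleGraph V) [DecidableRel G.Adj] {tau m0 lam C0 : ℝ} (m : ℕ)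
    (htau : 0 < tau) (htau1 : tau ≤ 1) (hC0 : 1 ≤ C0) (hm0 : 0 ≤ m0) (hl0 : 0 < lam)
    (hK : (9 + 3 * Real.log (1 / tau) + C0 / 2) * Real.sqrt lam ≤ 1 / 2)
    (hrich : Rich G tau m0) {X : Finset V} (hX : X.Nonempty) (hXm : m0 ≤ lam ^ 2 * X.card)
    {F : V → ℝ} (hF : ∀ v, 0 ≤ F v)
    (hmax : ∀ B : Finset V, B ⊆ X → B.Nonempty →
      PJ (col G true) lam (m + 2) B F ≤ PJ (col G true) lam (m + 2) X F)
    (hS : 0 < SJ (col G true) (m + 2) X F)
    (hratio : SJ (col G true) (m + 1) X F ≤ C0 * SJ (col G true) (m + 2) X F) :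
    ∃ u ∈ X, (X.filter (fun w => G.Adj u w)).Nonempty ∧
      (1 - (9 + 3 * Real.log (1 / tau) + C0 / 2) * Real.sqrt lam) *
        PJ (col G true) lam (m + 2) X F ≤
      PJ (col G true) lam (m + 1) (X.filter (fun w => G.Adj u w))
        (fun v => F v * col G true v u) := by
  set c := col G true with hc
  have hc0 : ∀ v w, 0 ≤ c v w := col_nonneg G true
  have hc1 : ∀ v w, c v w ≤ 1 := col_le_one G true
  set L := Real.log (1 / tau) with hL
  have hL0 : 0 ≤ L := by
    apply Real.log_nonneg
    rw [le_div_iff₀ htau]; linarith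
  set r := Real.sqrt lam with hr
  have hr0 : 0 < r := Real.sqrt_pos.2 hl0
  have hrr : r * r = lam := Real.mul_self_sqrt hl0.le
  have hr1 : r ≤ 1 / 18 := by nlinarith
  have hl1 : lam ≤ 1 / 324 := by nlinarith
  have hlr : lam ≤ r := by nlinarith
  set s0 := lam ^ 2 * tau with hs0
  have hs0pos : 0 < s0 := by positivity
  have hs01 : s0 ≤ 1 := by
    have : lam ^ 2 ≤ 1 := by nlinarith
    nlinarith
  have hls0 : Real.log (1 / s0) = 2 * Real.log (1 / lam) + L := by
    rw [hs0, hL, one_div, one_div, one_div, Real.log_inv, Real.log_inv, Real.log_inv,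
      Real.log_mul (by positivity) htau.ne', Real.log_pow]
    push_cast
    ring
  have hlls : lam * Real.log (1 / s0) ≤ (2 + L) * r := by
    rw [hls0]
    have h1 := lam_log hl0
    have h2 : lam * L ≤ r * L := mul_le_mul_of_nonneg_right hlr hL0
    nlinarith
  have hlls2 : (2 + L) * r ≤ 1 / 2 := by
    have : (2 + L) * r ≤ (9 + 3 * L + C0 / 2) * r := by
      apply mul_le_mul_of_nonneg_right _ hr0.le
      linarith
    linarith
  have hlogs0 : 0 ≤ Real.log (1 / s0) := by
    apply Real.log_nonneg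
    rw [le_div_iff₀ hs0pos]; linarith
  have hxpos : (0 : ℝ) < X.card := by exact_mod_cast hX.card_pos
  set A : V → Finset V := fun u => X.filter (fun w => G.Adj u w) with hA
  set Y := X.filter (fun u => ((A u).card : ℝ) < s0 * X.card) with hYdef
  set Z := X.filter (fun u => ¬ ((A u).card : ℝ) < s0 * X.card) with hZdef
  have hYX : Y ⊆ X := filter_subset _ _
  have hZX : Z ⊆ X := filter_subset _ _
  have hZgood : ∀ u ∈ Z, s0 * X.card ≤ ((A u).card : ℝ) := by
    intro u hu
    rw [hZdef, mem_filter] at hu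
    exact not_lt.1 hu.2
  have hYcard : (Y.card : ℝ) ≤ lam ^ 2 * X.card := by
    rcases le_or_gt m0 (Y.card : ℝ) with h | h
    · rcases Y.eq_empty_or_nonempty with h1 | h1
      · rw [h1]; simp; positivity
      · obtain ⟨u, hu, hdeg⟩ := hrich Y h1 h
        have h2 : ((Y.filter (fun w => G.Adj u w)).card : ℝ) ≤ ((A u).card : ℝ) := by
          exact_mod_cast card_le_card (filter_subset_filter _ hYX)
        rw [hYdef, mem_filter] at hu
        have h3 : tau * Y.card ≤ tau * (lam ^ 2 * X.card) := by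
          have := hu.2
          rw [hs0] at this
          nlinarith
        exact le_of_mul_le_mul_left h3 htau
    · linarith
  -- the logarithms
  have hlogsum : ∑ u ∈ Z, Real.log ((X.card : ℝ) / (A u).card) ≤ (2 + L) * X.card := by
    have h1 := avg_log G htau htau1 hs0pos hs01 hm0 hrich hX Z.card Z rfl hZX hZgood
    have h2 : ∑ i ∈ range Z.card, Real.log ((X.card : ℝ) / (tau * (i + 1))) ≤
        ∑ i ∈ range X.card, Real.log ((X.card : ℝ) / (tau * (i + 1))) := by
      apply sum_le_sum_of_subset_of_nonneg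
      · exact range_subset_range.2 (card_le_card hZX)
      · intro i hi _
        rw [mem_range] at hi
        apply Real.log_nonneg
        rw [le_div_iff₀ (by positivity), one_mul]
        have hi' : ((i : ℝ) + 1) ≤ X.card := by
          have : i + 1 ≤ X.card := hi
          exact_mod_cast this
        calc tau * ((i : ℝ) + 1) ≤ 1 * ((i : ℝ) + 1) :=
              mul_le_mul_of_nonneg_right htau1 (by positivity)
          _ ≤ X.card := by linarith
    have h3 := sum_log_le X.card htau hX.card_pos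
    have h4 : m0 * Real.log (1 / s0) ≤ X.card := by
      calc m0 * Real.log (1 / s0) ≤ (lam ^ 2 * X.card) * Real.log (1 / s0) :=
            mul_le_mul_of_nonneg_right hXm hlogs0
        _ = X.card * (lam * (lam * Real.log (1 / s0))) := by ring
        _ ≤ X.card * 1 := by
            apply mul_le_mul_of_nonneg_left _ hxpos.le
            have : lam * Real.log (1 / s0) ≤ 1 / 2 := by linarith
            nlinarith
        _ = _ := mul_one _
    linarith
  set S := SJ c (m + 2) X F with hSdef
  -- the sums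
  set P1 : V → ℝ := fun u => ∑ v, (F v * dens c X v ^ (m + 1)) * c v u with hP1
  set P2 : V → ℝ := fun u => ∑ v, (F v * dens c X v ^ m) * c v u with hP2
  have hP2nn : ∀ u, 0 ≤ P2 u := fun u => sum_nonneg fun v _ =>
    mul_nonneg (mul_nonneg (hF v) (pow_nonneg (dens_nonneg hc0 X v) _)) (hc0 v u)
  have hP1X : ∑ u ∈ X, P1 u = X.card * S := by
    rw [hP1]
    simp only
    rw [sum_col, hSdef]
    unfold SJ
    congr 1
    refine sum_congr rfl fun v _ => ?_
    rw [pow_succ (dens c X v) (m + 1)]
    ring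
  have hP2X : ∑ u ∈ X, P2 u = X.card * SJ c (m + 1) X F := by
    rw [hP2]
    simp only
    rw [sum_col]
    unfold SJ
    congr 1
    refine sum_congr rfl fun v _ => ?_
    rw [pow_succ (dens c X v) m]
    ring
  have hP1Y : ∑ u ∈ Y, P1 u ≤ 2 * lam * (X.card * S) :=
    bad_sum hc0 hl0 (by linarith) m hYX hX hF hmax hYcard
  have hsplit : ∑ u ∈ X, P1 u = ∑ u ∈ Y, P1 u + ∑ u ∈ Z, P1 u :=
    (sum_filter_add_sum_filter_not X _ _).symm
  have hP2Z : ∑ u ∈ Z, P2 u ≤ X.card * (C0 * S) := by
    calc ∑ u ∈ Z, P2 u ≤ ∑ u ∈ X, P2 u :=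
          sum_le_sum_of_subset_of_nonneg hZX fun u _ _ => hP2nn u
      _ = X.card * SJ c (m + 1) X F := hP2X
      _ ≤ _ := mul_le_mul_of_nonneg_left hratio hxpos.le
  have hZcard : (Z.card : ℝ) ≤ X.card := by exact_mod_cast card_le_card hZX
  -- a single vertex
  have hone : ∀ u ∈ Z, P1 u - r * (1 + 2 * Real.log ((X.card : ℝ) / (A u).card)) * S -
      r / 2 * P2 u ≤ SJ c (m + 1) (A u) (fun v => F v * c v u) := by
    intro u hu
    have hAX : A u ⊆ X := filter_subset _ _
    have hgu := hZgood u hu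
    have hApos : (0 : ℝ) < (A u).card := lt_of_lt_of_le (by positivity) hgu
    have hAne : (A u).Nonempty := by
      rw [← card_pos]; exact_mod_cast hApos
    have hlogA : Real.log ((X.card : ℝ) / (A u).card) ≤ Real.log (1 / s0) := by
      apply Real.log_le_log (by positivity)
      rw [div_le_div_iff₀ hApos hs0pos]
      linarith
    have hst := stab hc0 hl0.le (by linarith) (m + 1) hAX hX hAne hF hmax (by
      calc lam * Real.log ((X.card : ℝ) / (A u).card) ≤ lam * Real.log (1 / s0) :=
            mul_le_mul_of_nonneg_left hlogA hl0.le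
        _ ≤ 1 := by linarith)
    have hpt : ∀ v, (F v * dens c X v ^ (m + 1)) * c v u -
        1 / r * (F v * BR (m + 1) (dens c X v) (dens c (A u) v)) -
        r / 2 * ((F v * dens c X v ^ m) * c v u) ≤ (F v * c v u) * dens c (A u) v ^ (m + 1) := by
      intro v
      have hx := dens_nonneg hc0 X v
      have hy := dens_nonneg hc0 (A u) v
      have h1 := core_pt m hx hy hr0
      have hB := BR_nonneg (m + 1) hx hy
      set x := dens c X v
      set y := dens c (A u) v
      have hFc : 0 ≤ F v * c v u := mul_nonneg (hF v) (hc0 v u)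
      have h2 := mul_le_mul_of_nonneg_left h1 hFc
      have h3 : (F v * c v u) * BR (m + 1) x y ≤ F v * BR (m + 1) x y := by
        apply mul_le_mul_of_nonneg_right _ hB
        have := mul_le_mul_of_nonneg_left (hc1 v u) (hF v)
        linarith
      have h4 := mul_le_mul_of_nonneg_left h3 (show 0 ≤ 1 / r by positivity)
      nlinarith
    have hsum := sum_le_sum (s := (univ : Finset V)) fun v _ => hpt v
    rw [sum_sub_distrib, sum_sub_distrib, ← mul_sum, ← mul_sum] at hsum
    have h5 : 1 / r * ∑ v, F v * BR (m + 1) (dens c X v) (dens c (A u) v) ≤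
        r * (1 + 2 * Real.log ((X.card : ℝ) / (A u).card)) * S := by
      calc 1 / r * ∑ v, F v * BR (m + 1) (dens c X v) (dens c (A u) v) ≤
            1 / r * (lam * (1 + 2 * Real.log ((X.card : ℝ) / (A u).card)) * S) :=
            mul_le_mul_of_nonneg_left hst (by positivity)
        _ = _ := by
            rw [← hrr]
            field_simp
    have h6 : SJ c (m + 1) (A u) (fun v => F v * c v u) =
        ∑ v, (F v * c v u) * dens c (A u) v ^ (m + 1) := rfl
    rw [h6]
    have h7 : P1 u = ∑ v, (F v * dens c X v ^ (m + 1)) * c v u := rfl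
    have h8 : P2 u = ∑ v, (F v * dens c X v ^ m) * c v u := rfl
    rw [h7, h8]
    linarith
  -- summing over the good vertices
  have hZsum : X.card * S * (1 - (7 + 2 * L + C0 / 2) * r) ≤
      ∑ u ∈ Z, SJ c (m + 1) (A u) (fun v => F v * c v u) := by
    have h1 := sum_le_sum hone
    rw [sum_sub_distrib, sum_sub_distrib, ← mul_sum, ← sum_mul, ← mul_sum, sum_add_distrib,
      sum_const, nsmul_eq_mul, mul_one, ← mul_sum] at h1
    have h2 : r * (Z.card + 2 * ∑ u ∈ Z, Real.log ((X.card : ℝ) / (A u).card)) * S ≤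
        r * (X.card + 2 * ((2 + L) * X.card)) * S := by
      apply mul_le_mul_of_nonneg_right _ hS.le
      apply mul_le_mul_of_nonneg_left _ hr0.le
      linarith
    have h3 : r / 2 * ∑ u ∈ Z, P2 u ≤ r / 2 * (X.card * (C0 * S)) :=
      mul_le_mul_of_nonneg_left hP2Z (by positivity)
    have h4 : 2 * lam * (X.card * S) ≤ 2 * r * (X.card * S) := by
      apply mul_le_mul_of_nonneg_right _ (by positivity)
      linarith
    nlinarith
  have hrho : 0 < 1 - (7 + 2 * L + C0 / 2) * r := by
    have : (7 + 2 * L + C0 / 2) * r ≤ (9 + 3 * L + C0 / 2) * r := by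
      apply mul_le_mul_of_nonneg_right _ hr0.le
      linarith
    linarith
  obtain ⟨u, huZ, hu⟩ : ∃ u ∈ Z, S * (1 - (7 + 2 * L + C0 / 2) * r) ≤
      SJ c (m + 1) (A u) (fun v => F v * c v u) := by
    by_contra hcon
    push Not at hcon
    have hpos : 0 < X.card * S * (1 - (7 + 2 * L + C0 / 2) * r) := by positivity
    rcases Z.eq_empty_or_nonempty with h | h
    · rw [h, sum_empty] at hZsum
      linarith
    · have h1 := sum_lt_sum_of_nonempty h hcon
      rw [sum_const, nsmul_eq_mul] at h1
      have h2 : (Z.card : ℝ) * (S * (1 - (7 + 2 * L + C0 / 2) * r)) ≤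
          X.card * (S * (1 - (7 + 2 * L + C0 / 2) * r)) :=
        mul_le_mul_of_nonneg_right hZcard (by positivity)
      linarith
  have hgu := hZgood u huZ
  have hApos : (0 : ℝ) < (A u).card := lt_of_lt_of_le (by positivity) hgu
  have hAne : (A u).Nonempty := by
    rw [← card_pos]; exact_mod_cast hApos
  refine ⟨u, hZX huZ, hAne, ?_⟩
  have hpow : (1 - (2 + L) * r) * (X.card : ℝ) ^ lam ≤ ((A u).card : ℝ) ^ lam := by
    have h1 : (s0 * X.card) ^ lam ≤ ((A u).card : ℝ) ^ lam :=
      Real.rpow_le_rpow (by positivity) hgu hl0.le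
    rw [Real.mul_rpow hs0pos.le hxpos.le] at h1
    have h2 : 1 - (2 + L) * r ≤ s0 ^ lam := by
      have e1 : s0 ^ lam = Real.exp (-(lam * Real.log (1 / s0))) := by
        rw [Real.rpow_def_of_pos hs0pos, one_div, Real.log_inv]
        ring_nf
      rw [e1]
      have := Real.add_one_le_exp (-(lam * Real.log (1 / s0)))
      linarith
    refine le_trans ?_ h1
    exact mul_le_mul_of_nonneg_right h2 (Real.rpow_nonneg hxpos.le _)
  unfold PJ
  have hxl : 0 ≤ (X.card : ℝ) ^ lam := Real.rpow_nonneg hxpos.le _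
  have hal : 0 ≤ ((A u).card : ℝ) ^ lam := Real.rpow_nonneg hApos.le _
  calc (1 - (9 + 3 * L + C0 / 2) * r) * ((X.card : ℝ) ^ lam * S)
      ≤ ((1 - (2 + L) * r) * (1 - (7 + 2 * L + C0 / 2) * r)) * ((X.card : ℝ) ^ lam * S) := by
        apply mul_le_mul_of_nonneg_right _ (mul_nonneg hxl hS.le)
        have h1 : 0 ≤ ((2 + L) * r) * ((7 + 2 * L + C0 / 2) * r) := by positivity
        nlinarith
    _ = ((1 - (2 + L) * r) * (X.card : ℝ) ^ lam) * (S * (1 - (7 + 2 * L + C0 / 2) * r)) := by
        ring
    _ ≤ ((A u).card : ℝ) ^ lam * SJ c (m + 1) (A u) (fun v => F v * c v u) :=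
        mul_le_mul hpow hu (by positivity) hal

end Pool.Agent.H95.UP
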