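import Mathlib
import Pool.Agent.H95.UP.Red

set_option autoImplicit false
set_option linter.unusedSectionVars false
set_option linter.unusedVariables false

/-!
Uniform directions for Ramsey numbers, part 4: the induction and the core theorem.
-/

namespace Pool.Agent.H95.UP

open Finset
open Pool.Agent.H68.Book

variable {V : Type*} [Fintype V] [DecidableEq V]

/-- Every red clique with `i ≤ j` vertices in `X` has at most `M * C0 ^ (j - i)` common red
neighbours, counted with the weight `F`. -/
def HypJ (G : SimpleGraph V) (X : Finset V) (F : V → ℝ) (C0 M : ℝ) (j : ℕ) : Prop :=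
  ∀ i : ℕ, i ≤ j → ∀ l : List V, l.length = i → (∀ w ∈ l, w ∈ X) → Clq G true l →
    ∑ v, F v * cprod (col G true) l v ≤ M * C0 ^ (j - i)

lemma HypJ.mono {G : SimpleGraph V} {X Y : Finset V} {F : V → ℝ} {C0 M : ℝ} {j : ℕ}
    (h : HypJ G Y F C0 M j) (hXY : X ⊆ Y) : HypJ G X F C0 M j :=
  fun i hi l hl hw => h i hi l hl fun w hwl => hXY (hw w hwl)

/-- **Main induction.** -/
theorem claim (G : SimpleGraph V) [DecidableRel G.Adj] {tau m0 lam C0 M0 rho : ℝ}
    (htau : 0 < tau) (htau1 : tau ≤ 1) (hC0 : 1 ≤ C0) (hm0 : 0 ≤ m0) (hl0 : 0 < lam)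
    (hK : (9 + 3 * Real.log (1 / tau) + C0 / 2) * Real.sqrt lam ≤ 1 / 2)
    (hrho : rho = 1 - (9 + 3 * Real.log (1 / tau) + C0 / 2) * Real.sqrt lam)
    (hrich : Rich G tau m0) (hM0 : 0 ≤ M0)
    (hsmall : (m0 / lam ^ 2) ^ lam * Fintype.card V ≤ (Fintype.card V : ℝ) ^ lam * M0) :
    ∀ (j : ℕ) (X : Finset V) (F : V → ℝ) (M : ℝ), M0 ≤ M → (∀ v, 0 ≤ F v) →
      (∀ v, F v ≤ 1) → HypJ G X F C0 M j →
      PJ (col G true) lam j X F * rho ^ j ≤ (Fintype.card V : ℝ) ^ lam * M := by
  classical
  have hL0 : 0 ≤ Real.log (1 / tau) := by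
    apply Real.log_nonneg
    rw [le_div_iff₀ htau]; linarith
  have hKnn : 0 ≤ (9 + 3 * Real.log (1 / tau) + C0 / 2) * Real.sqrt lam := by positivity
  have hrho0 : 0 ≤ rho := by rw [hrho]; linarith
  have hrho1 : rho ≤ 1 := by rw [hrho]; linarith
  have hc0 : ∀ v w, 0 ≤ col G true v w := col_nonneg G true
  have hc1 : ∀ v w, col G true v w ≤ 1 := col_le_one G true
  have hNl : 0 ≤ (Fintype.card V : ℝ) ^ lam := Real.rpow_nonneg (Nat.cast_nonneg _) _
  have hempty : ∀ (j : ℕ) (F : V → ℝ), PJ (col G true) lam j ∅ F = 0 := by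
    intro j F
    unfold PJ
    rw [card_empty, Nat.cast_zero, Real.zero_rpow hl0.ne', zero_mul]
  have hpowle : ∀ X : Finset V, (X.card : ℝ) ^ lam ≤ (Fintype.card V : ℝ) ^ lam := by
    intro X
    apply Real.rpow_le_rpow (Nat.cast_nonneg _) _ hl0.le
    exact_mod_cast card_le_univ X
  have hdrop : ∀ (j : ℕ) (P B : ℝ), 0 ≤ P → P ≤ B → P * rho ^ j ≤ B := by
    intro j P B hP hPB
    have : rho ^ j ≤ 1 := pow_le_one₀ hrho0 hrho1
    calc P * rho ^ j ≤ P * 1 := mul_le_mul_of_nonneg_left this hP
      _ ≤ B := by rw [mul_one]; exact hPB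
  intro j
  induction j with
  | zero =>
      intro X F M hM hF0 hF1 hyp
      have h1 := hyp 0 le_rfl [] rfl (by simp) (by simp [Clq])
      simp only [cprod, List.map_nil, List.prod_nil, mul_one, Nat.sub_self, pow_zero] at h1
      apply hdrop 0 _ _ (PJ_nonneg hc0 hF0)
      unfold PJ
      have h2 : SJ (col G true) 0 X F = ∑ v, F v := by
        unfold SJ
        refine sum_congr rfl fun v _ => ?_
        rw [pow_zero, mul_one]
      rw [h2]
      exact mul_le_mul (hpowle X) h1 (sum_nonneg fun v _ => hF0 v) hNl
  | succ j ih =>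
      intro X F M hM hF0 hF1 hyp
      have hMnn : 0 ≤ M := hM0.trans hM
      have hB0 : 0 ≤ (Fintype.card V : ℝ) ^ lam * M := mul_nonneg hNl hMnn
      rcases X.eq_empty_or_nonempty with rfl | hXne
      · rw [hempty, zero_mul]; exact hB0
      rcases Nat.eq_zero_or_pos j with hj0 | hjpos
      · -- one step
        subst hj0
        apply hdrop _ _ _ (PJ_nonneg hc0 hF0)
        unfold PJ
        have hxpos : (0 : ℝ) < X.card := by exact_mod_cast hXne.card_pos
        have h1 : (X.card : ℝ) * SJ (col G true) 1 X F ≤ X.card * M := by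
          have h2 := sum_col (col G true) X F
          have h3 : ∑ u ∈ X, ∑ v, F v * col G true v u ≤ ∑ _u ∈ X, M := by
            refine sum_le_sum fun u hu => ?_
            have := hyp 1 le_rfl [u] rfl (by simp [hu]) (by simp [Clq])
            simpa [cprod] using this
          rw [h2, sum_const, nsmul_eq_mul] at h3
          unfold SJ
          simpa using h3
        have h2 : SJ (col G true) 1 X F ≤ M := le_of_mul_le_mul_left h1 hxpos
        exact mul_le_mul (hpowle X) h2 (SJ_nonneg hc0 hF0) hNl
      · obtain ⟨m, rfl⟩ : ∃ m, j = m + 1 := ⟨j - 1, by omega⟩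
        -- the maximal subset
        obtain ⟨X1, hX1mem, hX1max⟩ := (X.powerset.filter (fun Y => Y.Nonempty)).exists_max_image
          (fun Y => PJ (col G true) lam (m + 2) Y F) ⟨X, by simp [hXne]⟩
        rw [mem_filter, mem_powerset] at hX1mem
        obtain ⟨hX1X, hX1ne⟩ := hX1mem
        have hmax : ∀ B : Finset V, B ⊆ X1 → B.Nonempty →
            PJ (col G true) lam (m + 2) B F ≤ PJ (col G true) lam (m + 2) X1 F := by
          intro B hB hBne
          apply hX1max
          rw [mem_filter, mem_powerset]
          exact ⟨hB.trans hX1X, hBne⟩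
        have hle : PJ (col G true) lam (m + 2) X F ≤ PJ (col G true) lam (m + 2) X1 F := by
          apply hX1max
          rw [mem_filter, mem_powerset]
          exact ⟨Subset.rfl, hXne⟩
        have hyp1 := hyp.mono hX1X
        have hrj : 0 ≤ rho ^ (m + 1 + 1) := pow_nonneg hrho0 _
        refine le_trans (mul_le_mul_of_nonneg_right hle hrj) ?_
        have hx1pos : (0 : ℝ) < X1.card := by exact_mod_cast hX1ne.card_pos
        have hx1l : 0 ≤ (X1.card : ℝ) ^ lam := Real.rpow_nonneg hx1pos.le _
        by_cases hsm : (X1.card : ℝ) < m0 / lam ^ 2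
        · -- small sets
          apply hdrop _ _ _ (PJ_nonneg hc0 hF0)
          have h1 : SJ (col G true) (m + 2) X1 F ≤ Fintype.card V := by
            refine (SJ_le_sum hc0 hc1 hF0).trans ?_
            calc ∑ v, F v ≤ ∑ _v : V, (1 : ℝ) := sum_le_sum fun v _ => hF1 v
              _ = Fintype.card V := by simp
          have h2 : (X1.card : ℝ) ^ lam ≤ (m0 / lam ^ 2) ^ lam :=
            Real.rpow_le_rpow hx1pos.le hsm.le hl0.le
          unfold PJ
          calc (X1.card : ℝ) ^ lam * SJ (col G true) (m + 2) X1 F
              ≤ (m0 / lam ^ 2) ^ lam * Fintype.card V :=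
                mul_le_mul h2 h1 (SJ_nonneg hc0 hF0) (hx1l.trans h2)
            _ ≤ (Fintype.card V : ℝ) ^ lam * M0 := hsmall
            _ ≤ _ := mul_le_mul_of_nonneg_left hM hNl
        · push Not at hsm
          have hXm : m0 ≤ lam ^ 2 * X1.card := by
            rw [div_le_iff₀ (by positivity)] at hsm
            linarith
          by_cases hratio : SJ (col G true) (m + 1) X1 F ≤ C0 * SJ (col G true) (m + 2) X1 F
          · rcases (SJ_nonneg hc0 hF0 : 0 ≤ SJ (col G true) (m + 2) X1 F).eq_or_lt with hS | hS
            · have : PJ (col G true) lam (m + 2) X1 F = 0 := by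
                unfold PJ
                rw [← hS, mul_zero]
              rw [this, zero_mul]
              exact hB0
            · -- red step
              obtain ⟨u, hu, hAne, hstep⟩ := red_step G m htau htau1 hC0 hm0 hl0 hK hrich hX1ne
                hXm hF0 hmax hS hratio
              rw [← hrho] at hstep
              set A : Finset V := X1.filter (fun w => G.Adj u w) with hA
              have hAX : A ⊆ X1 := filter_subset _ _
              have hypA : HypJ G A (fun v => F v * col G true v u) C0 M (m + 1) := by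
                intro i hi l hl hw hcl
                have h1 := hyp1 (i + 1) (by omega) (u :: l) (by simp [hl])
                  (by
                    intro w hwl
                    rcases List.mem_cons.1 hwl with rfl | h
                    · exact hu
                    · exact hAX (hw w h))
                  (by
                    unfold Clq at hcl ⊢
                    rw [List.pairwise_cons]
                    refine ⟨fun w hwl => ?_, hcl⟩
                    have := hw w hwl
                    rw [hA, mem_filter] at this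
                    exact ⟨this.2.ne, by simp [this.2]⟩)
                have e : m + 1 + 1 - (i + 1) = m + 1 - i := by omega
                rw [e] at h1
                refine le_trans (le_of_eq ?_) h1
                refine sum_congr rfl fun v _ => ?_
                simp only [cprod, List.map_cons, List.prod_cons]
                ring
              have hih := ih A (fun v => F v * col G true v u) M hM
                (fun v => mul_nonneg (hF0 v) (hc0 v u))
                (fun v => mul_le_one₀ (hF1 v) (hc0 v u) (hc1 v u)) hypA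
              have hrj' : 0 ≤ rho ^ (m + 1) := pow_nonneg hrho0 _
              calc PJ (col G true) lam (m + 2) X1 F * rho ^ (m + 1 + 1)
                  = (rho * PJ (col G true) lam (m + 2) X1 F) * rho ^ (m + 1) := by
                    rw [pow_succ]; ring
                _ ≤ PJ (col G true) lam (m + 1) A (fun v => F v * col G true v u) *
                    rho ^ (m + 1) := mul_le_mul_of_nonneg_right hstep hrj'
                _ ≤ _ := hih
          · -- skip a step
            push Not at hratio
            have hypS : HypJ G X1 F C0 (C0 * M) (m + 1) := by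
              intro i hi l hl hw hcl
              have h1 := hyp1 i (by omega) l hl hw hcl
              have e : m + 1 + 1 - i = (m + 1 - i) + 1 := by omega
              rw [e, pow_succ] at h1
              linarith
            have hCM : M0 ≤ C0 * M := by nlinarith
            have hih := ih X1 F (C0 * M) hCM hF0 hF1 hypS
            have hC0pos : 0 < C0 := by linarith
            have h2 : C0 * PJ (col G true) lam (m + 2) X1 F ≤ PJ (col G true) lam (m + 1) X1 F := by
              unfold PJ
              nlinarith [mul_le_mul_of_nonneg_left hratio.le hx1l]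
            have hrj' : 0 ≤ rho ^ (m + 1) := pow_nonneg hrho0 _
            have hP0 : 0 ≤ PJ (col G true) lam (m + 2) X1 F := PJ_nonneg hc0 hF0
            have h3 : C0 * (PJ (col G true) lam (m + 2) X1 F * rho ^ (m + 1 + 1)) ≤
                C0 * ((Fintype.card V : ℝ) ^ lam * M) := by
              calc C0 * (PJ (col G true) lam (m + 2) X1 F * rho ^ (m + 1 + 1))
                  = (C0 * PJ (col G true) lam (m + 2) X1 F) * rho ^ (m + 1) * rho := by
                    rw [pow_succ]; ring
                _ ≤ (PJ (col G true) lam (m + 1) X1 F * rho ^ (m + 1)) * rho := by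
                    apply mul_le_mul_of_nonneg_right _ hrho0
                    exact mul_le_mul_of_nonneg_right h2 hrj'
                _ ≤ (PJ (col G true) lam (m + 1) X1 F * rho ^ (m + 1)) * 1 := by
                    apply mul_le_mul_of_nonneg_left hrho1
                    exact mul_nonneg (PJ_nonneg hc0 hF0) hrj'
                _ ≤ (Fintype.card V : ℝ) ^ lam * (C0 * M) := by rw [mul_one]; exact hih
                _ = _ := by ring
            exact le_of_mul_le_mul_left h3 hC0pos

/-- **Core theorem**, weighted moments of the degrees and books. -/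
theorem core (G : SimpleGraph V) [DecidableRel G.Adj] {tau m0 lam C0 M0 : ℝ}
    (htau : 0 < tau) (htau1 : tau ≤ 1) (hC0 : 1 ≤ C0) (hm0 : 0 ≤ m0) (hl0 : 0 < lam)
    (hK : (9 + 3 * Real.log (1 / tau) + C0 / 2) * Real.sqrt lam ≤ 1 / 2)
    (hrich : Rich G tau m0) (hM0 : 0 ≤ M0)
    (hsmall : (m0 / lam ^ 2) ^ lam * Fintype.card V ≤ (Fintype.card V : ℝ) ^ lam * M0)
    (hV : 0 < Fintype.card V) (j : ℕ) (F : V → ℝ) (M : ℝ) (hM : M0 ≤ M) (hF0 : ∀ v, 0 ≤ F v)
    (hF1 : ∀ v, F v ≤ 1)
    (h : ∀ i : ℕ, i ≤ j → ∀ l : List V, l.length = i → Clq G true l →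
      ∑ v, F v * cprod (col G true) l v ≤ M * C0 ^ (j - i)) :
    ∑ v, F v * dens (col G true) univ v ^ j ≤
      M * Real.exp (2 * ((9 + 3 * Real.log (1 / tau) + C0 / 2) * Real.sqrt lam) * j) := by
  set K := (9 + 3 * Real.log (1 / tau) + C0 / 2) * Real.sqrt lam with hKdef
  have hL0 : 0 ≤ Real.log (1 / tau) := by
    apply Real.log_nonneg
    rw [le_div_iff₀ htau]; linarith
  have hKnn : 0 ≤ K := by positivity
  have h1 := claim G htau htau1 hC0 hm0 hl0 hK rfl hrich hM0 hsmall j univ F M hM hF0 hF1
    (fun i hi l hl _ hcl => h i hi l hl hcl)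
  rw [← hKdef] at h1
  unfold PJ at h1
  rw [card_univ] at h1
  have hNpos : (0 : ℝ) < Fintype.card V := by exact_mod_cast hV
  have hNl : (0 : ℝ) < (Fintype.card V : ℝ) ^ lam := Real.rpow_pos_of_pos hNpos _
  have h2 : SJ (col G true) j univ F * (1 - K) ^ j ≤ M := by
    rw [mul_assoc] at h1
    exact le_of_mul_le_mul_left h1 hNl
  have h3 : Real.exp (-(2 * K)) ≤ 1 - K := by
    rw [Real.exp_neg]
    have h4 := Real.add_one_le_exp (2 * K)
    have h5 : (Real.exp (2 * K))⁻¹ ≤ (2 * K + 1)⁻¹ := inv_anti₀ (by linarith) h4
    refine h5.trans ?_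
    rw [inv_le_iff_one_le_mul₀ (by linarith)]
    nlinarith
  have h4 : Real.exp (-(2 * K * j)) ≤ (1 - K) ^ j := by
    have e : Real.exp (-(2 * K * j)) = Real.exp (-(2 * K)) ^ j := by
      rw [← Real.exp_nat_mul]
      ring_nf
    rw [e]
    exact pow_le_pow_left₀ (Real.exp_pos _).le h3 j
  have hS : 0 ≤ SJ (col G true) j univ F := SJ_nonneg (col_nonneg G true) hF0
  have h5 : SJ (col G true) j univ F * Real.exp (-(2 * K * j)) ≤ M :=
    (mul_le_mul_of_nonneg_left h4 hS).trans h2
  rw [Real.exp_neg, ← div_eq_mul_inv, div_le_iff₀ (Real.exp_pos _)] at h5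
  exact h5

end Pool.Agent.H95.UP
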