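import Mathlib
import Pool.Agent.H95.UP.Step
import Pool.Agent.H28.Ramsey.Main

set_option autoImplicit false
set_option linter.unusedSectionVars false
set_option linter.unusedVariables false

/-!
Uniform directions for Ramsey numbers, part 5: Ramsey colourings are rich, asymptotics.
-/

namespace Pool.Agent.H95.UP

open Finset
open Pool.Agent.H28.Ramsey

/-- Ramsey colourings are rich in every induced subgraph. -/
lemma rich_of {V : Type} [Fintype V] [DecidableEq V] (G : SimpleGraph V) [DecidableRel G.Adj]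
    {a b t : ℕ} {tau m0 : ℝ}
    (hG1 : ∀ S : Finset V, ¬ G.IsNClique a S) (hG2 : ∀ S : Finset V, ¬ Gᶜ.IsNClique b S)
    (htau : 0 ≤ tau) (ht : 2 * b * tau ≤ t + 1)
    (hm0 : ((2 * (((a + t).choose a + b) * ∑ i ∈ range (t + 1), b.choose i) : ℕ) : ℝ) < m0) :
    Rich G tau m0 := by
  classical
  intro U hUne hU
  by_contra hcon
  push Not at hcon
  set G' : SimpleGraph {x // x ∈ U} := G.comap (Subtype.val) with hG'
  have hsucc : ∀ (H : SimpleGraph V) (n : ℕ), (∀ S : Finset V, ¬ H.IsNClique n S) →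
      ∀ S : Finset V, ¬ H.IsNClique (n + 1) S := by
    intro H n hH S hS
    obtain ⟨T, hT, hTc⟩ := exists_subset_card_eq (s := S) (n := n) (by rw [hS.card_eq]; omega)
    exact hH T ⟨hS.isClique.subset (by exact_mod_cast hT), hTc⟩
  have h1 : ∀ S : Finset {x // x ∈ U}, ¬ G'.IsNClique (a + 1) S := by
    intro S hS
    apply hsucc G a hG1 (S.map (Function.Embedding.subtype _))
    rw [SimpleGraph.isNClique_iff] at hS ⊢
    refine ⟨?_, by rw [card_map]; exact hS.2⟩
    intro x hx y hy hxy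
    simp only [coe_map, Set.mem_image, mem_coe] at hx hy
    obtain ⟨i, hi, rfl⟩ := hx
    obtain ⟨j, hj, rfl⟩ := hy
    have hij : i ≠ j := fun h => hxy (by rw [h])
    exact hS.1 (mem_coe.2 hi) (mem_coe.2 hj) hij
  have h2 : ∀ S : Finset {x // x ∈ U}, ¬ G'ᶜ.IsNClique (b + 1) S := by
    intro S hS
    apply hsucc Gᶜ b hG2 (S.map (Function.Embedding.subtype _))
    rw [SimpleGraph.isNClique_iff] at hS ⊢
    refine ⟨?_, by rw [card_map]; exact hS.2⟩
    intro x hx y hy hxy
    simp only [coe_map, Set.mem_image, mem_coe] at hx hy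
    obtain ⟨i, hi, rfl⟩ := hx
    obtain ⟨j, hj, rfl⟩ := hy
    have hij : i ≠ j := fun h => hxy (by rw [h])
    have := hS.1 (mem_coe.2 hi) (mem_coe.2 hj) hij
    rw [SimpleGraph.compl_adj] at this ⊢
    exact ⟨hxy, fun h => this.2 h⟩
  have hUpos : (0 : ℝ) < U.card := by exact_mod_cast hUne.card_pos
  have hdeg : ∀ v : {x // x ∈ U}, ((univ.filter (fun w => G'.Adj v w)).card) =
      (U.filter (fun w => G.Adj v.1 w)).card := by
    intro v
    rw [← card_map (Function.Embedding.subtype _)]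
    congr 1
    ext w
    simp only [mem_map, mem_filter, mem_univ, true_and, Function.Embedding.coe_subtype]
    constructor
    · rintro ⟨x, hx, rfl⟩
      exact ⟨x.2, hx⟩
    · rintro ⟨hw, hadj⟩
      exact ⟨⟨w, hw⟩, hadj, rfl⟩
  have hcardU : (univ : Finset {x // x ∈ U}).card = U.card := by
    rw [card_univ, Fintype.card_coe]
  have h3 := unbalanced (D := ⌊tau * U.card⌋₊) G' h1 h2 (arr_es _ a t rfl) univ (by
    intro v _
    apply Nat.le_floor
    have := hcon v.1 v.2
    rw [← hdeg v] at this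
    exact this.le) (by
    rw [hcardU]
    have h4 : ((⌊tau * U.card⌋₊ : ℕ) : ℝ) ≤ tau * U.card := Nat.floor_le (by positivity)
    have h5 : ((2 * (b * ⌊tau * U.card⌋₊) : ℕ) : ℝ) ≤ ((U.card * (t + 1) : ℕ) : ℝ) := by
      push_cast
      calc (2 : ℝ) * (b * (⌊tau * U.card⌋₊ : ℕ)) ≤ 2 * (b * (tau * U.card)) := by
            apply mul_le_mul_of_nonneg_left _ (by norm_num)
            exact mul_le_mul_of_nonneg_left h4 (Nat.cast_nonneg _)
        _ = (2 * b * tau) * U.card := by ring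
        _ ≤ (t + 1) * U.card := mul_le_mul_of_nonneg_right ht hUpos.le
        _ = _ := by ring
    exact_mod_cast h5)
  rw [hcardU] at h3
  have h4 : ((U.card : ℕ) : ℝ) ≤
      ((2 * (((a + t).choose a + b) * ∑ i ∈ range (t + 1), b.choose i) : ℕ) : ℝ) := by
    exact_mod_cast h3
  linarith

/-- Polynomials against exponentials. -/
lemma poly_exp {B c : ℝ} (hB : 0 < B) (hc : 0 < c) : ∃ x0 : ℝ, 1 ≤ x0 ∧ ∀ x : ℝ, x0 ≤ x →
    (B * x) ^ 8 ≤ Real.exp (c * x) := by
  have h := Real.tendsto_pow_mul_exp_neg_atTop_nhds_zero 8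
  have h1 : ∀ᶠ y : ℝ in Filter.atTop, y ^ 8 * Real.exp (-y) ≤ (c / B) ^ 8 := by
    apply h.eventually_le_const
    positivity
  rw [Filter.eventually_atTop] at h1
  obtain ⟨y0, hy0⟩ := h1
  refine ⟨max 1 (y0 / c), le_max_left _ _, ?_⟩
  intro x hx
  have hx1 : 1 ≤ x := (le_max_left _ _).trans hx
  have hx2 : y0 / c ≤ x := (le_max_right _ _).trans hx
  rw [div_le_iff₀ hc] at hx2
  have h2 := hy0 (c * x) (by linarith)
  rw [Real.exp_neg, ← div_eq_mul_inv, div_le_iff₀ (Real.exp_pos _)] at h2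
  have h3 : (B * x) ^ 8 = (B / c) ^ 8 * (c * x) ^ 8 := by
    rw [← mul_pow]
    congr 1
    field_simp
  rw [h3]
  calc (B / c) ^ 8 * (c * x) ^ 8 ≤ (B / c) ^ 8 * ((c / B) ^ 8 * Real.exp (c * x)) :=
        mul_le_mul_of_nonneg_left h2 (by positivity)
    _ = Real.exp (c * x) := by
        rw [← mul_assoc, ← mul_pow]
        have : B / c * (c / B) = 1 := by field_simp
        rw [this, one_pow, one_mul]

end Pool.Agent.H95.UP
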