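import Mathlib
import Pool.Agent.H95.UP.Claim
import Pool.Agent.H95.UP.Rich

set_option autoImplicit false
set_option linter.unusedSectionVars false
set_option linter.unusedVariables false

/-!
Uniform directions for Ramsey numbers, part 6: mixed moments in a Ramsey colouring.
-/

namespace Pool.Agent.H95.UP

open Finset
open Pool.Agent.H68.Book
open Pool.Agent.H28.Ramsey

lemma ramsey_mono {k k' l l' : ℕ} (hk : k ≤ k') (hl : l ≤ l') : ramsey k l ≤ ramsey k' l' := by
  apply Nat.sInf_le
  refine ⟨ramsey_pos k' l', fun G => ?_⟩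
  rcases (ramsey_spec k' l').2 G with ⟨S, hS⟩ | ⟨S, hS⟩
  · left
    obtain ⟨T, hT, hc⟩ := exists_subset_card_eq (s := S) (n := k) (by rw [hS.card_eq]; exact hk)
    exact ⟨T, hS.isClique.subset (by exact_mod_cast hT), hc⟩
  · right
    obtain ⟨T, hT, hc⟩ := exists_subset_card_eq (s := S) (n := l) (by rw [hS.card_eq]; exact hl)
    exact ⟨T, hS.isClique.subset (by exact_mod_cast hT), hc⟩

section general

variable {V : Type} [Fintype V] [DecidableEq V]

lemma clq_isNClique {G : SimpleGraph V} {l : List V} (h : Clq G true l) :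
    G.IsNClique l.length l.toFinset := by
  have hnodup : l.Nodup := by
    unfold Clq at h
    exact h.imp (fun h => h.1)
  rw [SimpleGraph.isNClique_iff]
  refine ⟨?_, List.toFinset_card_of_nodup hnodup⟩
  intro u hu w hw huw
  rw [mem_coe, List.mem_toFinset] at hu hw
  have hsym : Std.Symm (rl G true) := ⟨fun x y h => rl_symm G true h⟩
  have h1 := List.Pairwise.forall (R := rl G true) h hu hw huw
  exact h1.2.1 rfl

lemma cprod_zero {G : SimpleGraph V} {l : List V} {v u : V} (hu : u ∈ l) (h : ¬ G.Adj v u) :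
    cprod (col G true) l v = 0 := by
  unfold cprod
  apply List.prod_eq_zero
  rw [List.mem_map]
  refine ⟨u, hu, ?_⟩
  unfold col
  apply ind_of_not
  intro h3
  exact h (h3.1 rfl)

/-- A clique and a set of common neighbours. -/
lemma union_clique {G : SimpleGraph V} {l : List V} {i a : ℕ} (hia : i ≤ a) (hl : l.length = i)
    (hcl : Clq G true l) {U : Finset V} (hU : G.IsNClique (a - i) U)
    (hadj : ∀ x ∈ l.toFinset, ∀ y ∈ U, G.Adj x y) : G.IsNClique a (l.toFinset ∪ U) := by
  have hS := clq_isNClique hcl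
  rw [hl] at hS
  have hdisj : Disjoint l.toFinset U := by
    rw [disjoint_left]
    intro x hx hxU
    exact (hadj x hx x hxU).ne rfl
  rw [SimpleGraph.isNClique_iff] at hS hU ⊢
  refine ⟨?_, ?_⟩
  · rw [coe_union]
    intro x hx y hy hxy
    rcases hx with hx | hx
    · rcases hy with hy | hy
      · exact hS.1 hx hy hxy
      · exact hadj x hx y hy
    · rcases hy with hy | hy
      · exact (hadj y hy x hx).symm
      · exact hU.1 hx hy hxy
  · rw [card_union_of_disjoint hdisj, hS.2, hU.2]
    omega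

/-- The common neighbours of a red clique and a blue clique in a Ramsey colouring. -/
lemma pages2 {G : SimpleGraph V} {a b i i' : ℕ} (hi : i ≤ a) (hi' : i' ≤ b)
    (hG1 : ∀ S : Finset V, ¬ G.IsNClique a S) (hG2 : ∀ S : Finset V, ¬ Gᶜ.IsNClique b S)
    {l l' : List V} (hl : l.length = i) (hl' : l'.length = i') (hcl : Clq G true l)
    (hcl' : Clq Gᶜ true l') :
    ∑ v, cprod (col G true) l v * cprod (col Gᶜ true) l' v ≤ (ramsey (a - i) (b - i') : ℝ) := by
  classical
  set T : Finset V := univ.filter (fun v => (∀ u ∈ l, G.Adj v u) ∧ ∀ u ∈ l', Gᶜ.Adj v u) with hT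
  have h1 : ∀ v, cprod (col G true) l v * cprod (col Gᶜ true) l' v ≤
      if v ∈ T then (1 : ℝ) else 0 := by
    intro v
    split_ifs with hvT
    · exact mul_le_one₀ (cprod_le_one (col_nonneg G true) (col_le_one G true) l v)
        (cprod_nonneg (col_nonneg Gᶜ true) l' v)
        (cprod_le_one (col_nonneg Gᶜ true) (col_le_one Gᶜ true) l' v)
    · apply le_of_eq
      rw [hT, mem_filter] at hvT
      push Not at hvT
      by_cases hA : ∀ u ∈ l, G.Adj v u
      · obtain ⟨u, hu, hne⟩ := hvT (mem_univ _) hA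
        rw [cprod_zero (G := Gᶜ) hu hne, mul_zero]
      · push Not at hA
        obtain ⟨u, hu, hne⟩ := hA
        rw [cprod_zero hu hne, zero_mul]
  have h2 : ∑ v, cprod (col G true) l v * cprod (col Gᶜ true) l' v ≤ #T := by
    calc ∑ v, cprod (col G true) l v * cprod (col Gᶜ true) l' v ≤
          ∑ v, (if v ∈ T then (1 : ℝ) else 0) := sum_le_sum fun v _ => h1 v
      _ = #T := by simp
  have h4 : #T < ramsey (a - i) (b - i') := by
    by_contra hcon
    push Not at hcon
    rcases arr_ramsey (a - i) (b - i') V G T hcon with ⟨U, hU, hUc⟩ | ⟨U, hU, hUc⟩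
    · apply hG1 (l.toFinset ∪ U)
      apply union_clique hi hl hcl hUc
      intro x hx y hy
      have := hU hy
      rw [hT, mem_filter] at this
      exact (this.2.1 x (List.mem_toFinset.1 hx)).symm
    · apply hG2 (l'.toFinset ∪ U)
      apply union_clique hi' hl' hcl' hUc
      intro x hx y hy
      have := hU hy
      rw [hT, mem_filter] at this
      exact (this.2.2 x (List.mem_toFinset.1 hx)).symm
  have h5 : (#T : ℝ) ≤ (ramsey (a - i) (b - i') : ℝ) := by exact_mod_cast h4.le
  linarith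

/-- **Mixed moments.** -/
theorem mixed (G : SimpleGraph V) [DecidableRel G.Adj] [DecidableRel Gᶜ.Adj] {a b k j : ℕ}
    {tau m0 lam C0 : ℝ}
    (hG1 : ∀ S : Finset V, ¬ G.IsNClique a S) (hG2 : ∀ S : Finset V, ¬ Gᶜ.IsNClique b S)
    (htau : 0 < tau) (htau1 : tau ≤ 1) (hC0 : 1 ≤ C0) (hm0 : 0 ≤ m0) (hl0 : 0 < lam)
    (hK : (9 + 3 * Real.log (1 / tau) + C0 / 2) * Real.sqrt lam ≤ 1 / 2)
    (hrich : Rich G tau m0) (hrich' : Rich Gᶜ tau m0) (hk : k ≤ a) (hj : j ≤ b)
    (hR : ∀ i : ℕ, i ≤ k → ∀ i' : ℕ, i' ≤ j →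
      (ramsey (a - i) (b - i') : ℝ) ≤ C0 ^ (k - i) * C0 ^ (j - i') * ramsey (a - k) (b - j))
    (hsmall : (m0 / lam ^ 2) ^ lam * Fintype.card V ≤
      (Fintype.card V : ℝ) ^ lam * ramsey (a - k) (b - j))
    (hV : 0 < Fintype.card V) :
    ∑ v, dens (col G true) univ v ^ k * dens (col Gᶜ true) univ v ^ j ≤
      ramsey (a - k) (b - j) *
        Real.exp (2 * ((9 + 3 * Real.log (1 / tau) + C0 / 2) * Real.sqrt lam) * (k + j)) := by
  set R0 : ℝ := (ramsey (a - k) (b - j) : ℝ) with hR0
  have hR0nn : 0 ≤ R0 := Nat.cast_nonneg _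
  set K := (9 + 3 * Real.log (1 / tau) + C0 / 2) * Real.sqrt lam with hKdef
  have hL0 : 0 ≤ Real.log (1 / tau) := by
    apply Real.log_nonneg
    rw [le_div_iff₀ htau]; linarith
  have hKnn : 0 ≤ K := by positivity
  have hE : 1 ≤ Real.exp (2 * K * j) := Real.one_le_exp (by positivity)
  have hdB0 : ∀ v, 0 ≤ dens (col Gᶜ true) univ v := dens_nonneg (col_nonneg Gᶜ true) univ
  have hdB1 : ∀ v, dens (col Gᶜ true) univ v ≤ 1 := dens_le_one (col_le_one Gᶜ true) univ
  have h1 := core G htau htau1 hC0 hm0 hl0 hK hrich hR0nn hsmall hV k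
    (fun v => dens (col Gᶜ true) univ v ^ j) (R0 * Real.exp (2 * K * j))
    (le_mul_of_one_le_right hR0nn hE) (fun v => pow_nonneg (hdB0 v) _)
    (fun v => pow_le_one₀ (hdB0 v) (hdB1 v)) (by
      intro i hi l hl hcl
      have h2 := core Gᶜ htau htau1 hC0 hm0 hl0 hK hrich' hR0nn hsmall hV j
        (fun v => cprod (col G true) l v) (R0 * C0 ^ (k - i))
        (le_mul_of_one_le_right hR0nn (one_le_pow₀ hC0))
        (fun v => cprod_nonneg (col_nonneg G true) l v)
        (fun v => cprod_le_one (col_nonneg G true) (col_le_one G true) l v) (by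
          intro i' hi' l' hl' hcl'
          have h3 := pages2 (hi.trans hk) (hi'.trans hj) hG1 hG2 hl hl' hcl hcl'
          have h4 := hR i hi i' hi'
          calc _ ≤ _ := h3
            _ ≤ _ := h4
            _ = _ := by ring)
      calc ∑ v, dens (col Gᶜ true) univ v ^ j * cprod (col G true) l v
          = ∑ v, cprod (col G true) l v * dens (col Gᶜ true) univ v ^ j :=
            sum_congr rfl fun v _ => mul_comm _ _
        _ ≤ _ := h2
        _ = _ := by ring)
  calc ∑ v, dens (col G true) univ v ^ k * dens (col Gᶜ true) univ v ^ j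
      = ∑ v, dens (col Gᶜ true) univ v ^ j * dens (col G true) univ v ^ k :=
        sum_congr rfl fun v _ => mul_comm _ _
    _ ≤ _ := h1
    _ = R0 * Real.exp (2 * K * (k + j)) := by
        rw [mul_assoc, ← Real.exp_add]
        congr 2
        ring

end general

end Pool.Agent.H95.UP
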