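import Mathlib
import Pool.Agent.H95.UP.Mixed

set_option autoImplicit false
set_option linter.unusedSectionVars false
set_option linter.unusedVariables false

/-!
Uniform directions for Ramsey numbers, part 7: sizes, ratios and the trivial ranges.
-/

namespace Pool.Agent.H95.UP

open Finset
open Pool.Agent.H68.Book
open Pool.Agent.H28.Ramsey

lemma ramsey_le_exp {η : ℝ} (hη : 0 < η) {a b : ℕ} (hb : η * b ≤ a) :
    (ramsey a b : ℝ) ≤ Real.exp ((1 + 1 / η) * a) := by
  have h1 : ramsey a b ≤ 2 ^ (a + b) := by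
    calc ramsey a b ≤ ramsey (a + 1) (b + 1) := ramsey_mono (by omega) (by omega)
      _ ≤ (a + b).choose a := ramsey_le_choose a b
      _ ≤ 2 ^ (a + b) := Nat.choose_le_two_pow _ _
  have h2 : (b : ℝ) ≤ 1 / η * a := by
    rw [one_div, ← div_eq_inv_mul, le_div_iff₀ hη]
    linarith
  calc (ramsey a b : ℝ) ≤ ((2 ^ (a + b) : ℕ) : ℝ) := by exact_mod_cast h1
    _ = (2 : ℝ) ^ (a + b) := by push_cast; rfl
    _ ≤ (Real.exp 1) ^ (a + b) := by
        apply pow_le_pow_left₀ (by norm_num)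
        linarith [Real.exp_one_gt_d9]
    _ = Real.exp ((a + b : ℕ) : ℝ) := by
        rw [← Real.exp_nat_mul, mul_one]
    _ ≤ _ := by
        apply Real.exp_le_exp.2
        push_cast
        linarith

lemma avg_le_one {n : ℕ} (hn : 0 < n) {x : Fin n → ℝ} (hx : ∀ i, 0 ≤ x i ∧ x i ≤ 1) (k j : ℕ) :
    (∑ i, x i ^ k * (1 - x i) ^ j) / n ≤ 1 := by
  have hnR : (0 : ℝ) < n := by exact_mod_cast hn
  rw [div_le_one hnR]
  calc ∑ i, x i ^ k * (1 - x i) ^ j ≤ ∑ _i : Fin n, (1 : ℝ) := by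
        refine sum_le_sum fun i _ => ?_
        exact mul_le_one₀ (pow_le_one₀ (hx i).1 (hx i).2)
          (pow_nonneg (by linarith [(hx i).2]) _)
          (pow_le_one₀ (by linarith [(hx i).2]) (by linarith [(hx i).1]))
    _ = n := by simp

lemma avg_nonneg {n : ℕ} {x : Fin n → ℝ} (hx : ∀ i, 0 ≤ x i ∧ x i ≤ 1) (k j : ℕ) :
    0 ≤ (∑ i, x i ^ k * (1 - x i) ^ j) / n := by
  apply div_nonneg _ (Nat.cast_nonneg _)
  exact sum_nonneg fun i _ => mul_nonneg (pow_nonneg (hx i).1 _)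
    (pow_nonneg (by linarith [(hx i).2]) _)

/-- The trivial ranges. -/
lemma triv {n a b k j : ℕ} (hn : 0 < n) {x : Fin n → ℝ} (hx : ∀ i, 0 ≤ x i ∧ x i ≤ 1)
    {D E : ℝ} (hR : (ramsey a b : ℝ) ≤ Real.exp (D * a)) (hE : D * a ≤ E) :
    Real.exp (-E) * ramsey a b * ((∑ i, x i ^ k * (1 - x i) ^ j) / n) ≤
      ramsey (a - k) (b - j) := by
  have h1 : (1 : ℝ) ≤ ramsey (a - k) (b - j) := by exact_mod_cast ramsey_pos _ _
  refine le_trans ?_ h1
  have h2 : Real.exp (-E) * ramsey a b ≤ 1 := by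
    calc Real.exp (-E) * ramsey a b ≤ Real.exp (-E) * Real.exp (D * a) :=
          mul_le_mul_of_nonneg_left hR (Real.exp_pos _).le
      _ = Real.exp (D * a - E) := by rw [← Real.exp_add]; ring_nf
      _ ≤ 1 := by
          rw [Real.exp_le_one_iff]
          linarith
  exact mul_le_one₀ h2 (avg_nonneg hx k j) (avg_le_one hn hx k j)

/-- Ratios in one coordinate, iterated. -/
lemma chain_left {C0 : ℝ} (hC0 : 0 ≤ C0) (d a' b' : ℕ)
    (h : ∀ e : ℕ, e < d → (ramsey (a' + e + 1) b' : ℝ) ≤ C0 * ramsey (a' + e) b') :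
    (ramsey (a' + d) b' : ℝ) ≤ C0 ^ d * ramsey a' b' := by
  induction d with
  | zero => simp
  | succ d ih =>
      have h1 := ih (fun e he => h e (by omega))
      have h2 := h d (by omega)
      calc (ramsey (a' + (d + 1)) b' : ℝ) = ramsey (a' + d + 1) b' := by ring_nf
        _ ≤ C0 * ramsey (a' + d) b' := h2
        _ ≤ C0 * (C0 ^ d * ramsey a' b') := mul_le_mul_of_nonneg_left h1 hC0
        _ = _ := by rw [pow_succ]; ring

lemma chain_right {C0 : ℝ} (hC0 : 0 ≤ C0) (d a' b' : ℕ)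
    (h : ∀ e : ℕ, e < d → (ramsey a' (b' + e + 1) : ℝ) ≤ C0 * ramsey a' (b' + e)) :
    (ramsey a' (b' + d) : ℝ) ≤ C0 ^ d * ramsey a' b' := by
  induction d with
  | zero => simp
  | succ d ih =>
      have h1 := ih (fun e he => h e (by omega))
      have h2 := h d (by omega)
      calc (ramsey a' (b' + (d + 1)) : ℝ) = ramsey a' (b' + d + 1) := by ring_nf
        _ ≤ C0 * ramsey a' (b' + d) := h2
        _ ≤ C0 * (C0 ^ d * ramsey a' b') := mul_le_mul_of_nonneg_left h1 hC0
        _ = _ := by rw [pow_succ]; ring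

/-- The iterated bounded ratio inequality. -/
lemma ratios {η C0 C1 : ℝ} (hη : 0 < η) (hC0 : 1 ≤ C0) (hC01 : C1 ≤ C0)
    (hC1 : ∀ k l : ℕ, 1 ≤ k → 1 ≤ l → η / 2 * k ≤ l → η / 2 * l ≤ k →
      (ramsey (k + 1) (l + 1) : ℝ) ≤ C1 * ramsey k l)
    {a b k j : ℕ} (ha : 1 ≤ a) (hb : 1 ≤ b) (h1 : η * a ≤ b) (h2 : η * b ≤ a)
    (hk : (k : ℝ) ≤ a / 2) (hj : (j : ℝ) ≤ b / 2) (i : ℕ) (hi : i ≤ k) (i' : ℕ) (hi' : i' ≤ j) :
    (ramsey (a - i) (b - i') : ℝ) ≤ C0 ^ (k - i) * C0 ^ (j - i') * ramsey (a - k) (b - j) := by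
  have haR : (1 : ℝ) ≤ a := by exact_mod_cast ha
  have hbR : (1 : ℝ) ≤ b := by exact_mod_cast hb
  have hka : k < a := by
    have : (k : ℝ) < a := by linarith
    exact_mod_cast this
  have hjb : j < b := by
    have : (j : ℝ) < b := by linarith
    exact_mod_cast this
  -- one step
  have hstep : ∀ a' b' : ℕ, (a : ℝ) / 2 ≤ a' → a' ≤ a → (b : ℝ) / 2 ≤ b' → b' ≤ b →
      (ramsey (a' + 1) (b' + 1) : ℝ) ≤ C0 * ramsey a' b' := by
    intro a' b' g1 g2 g3 g4
    have g2' : (a' : ℝ) ≤ a := by exact_mod_cast g2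
    have g4' : (b' : ℝ) ≤ b := by exact_mod_cast g4
    have e1 : 1 ≤ a' := by
      have : (0 : ℝ) < a' := by linarith
      exact_mod_cast this
    have e2 : 1 ≤ b' := by
      have : (0 : ℝ) < b' := by linarith
      exact_mod_cast this
    have e3 := hC1 a' b' e1 e2 (by nlinarith) (by nlinarith)
    exact e3.trans (mul_le_mul_of_nonneg_right hC01 (Nat.cast_nonneg _))
  have hak : (a : ℝ) / 2 ≤ ((a - k : ℕ) : ℝ) := by
    rw [Nat.cast_sub hka.le]; linarith
  have hbj : (b : ℝ) / 2 ≤ ((b - j : ℕ) : ℝ) := by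
    rw [Nat.cast_sub hjb.le]; linarith
  have hbi : (b : ℝ) / 2 ≤ ((b - i' : ℕ) : ℝ) := by
    have : ((i' : ℕ) : ℝ) ≤ j := by exact_mod_cast hi'
    rw [Nat.cast_sub (by omega)]; linarith
  have c1 := chain_left (by linarith : 0 ≤ C0) (k - i) (a - k) (b - i') (by
    intro e he
    have f1 := hstep (a - k + e) (b - i') (by push_cast; linarith [(Nat.cast_nonneg e : (0 : ℝ) ≤ e)])
      (by omega) hbi (by omega)
    refine le_trans ?_ f1
    exact_mod_cast ramsey_mono le_rfl (Nat.le_succ _))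
  have c2 := chain_right (by linarith : 0 ≤ C0) (j - i') (a - k) (b - j) (by
    intro e he
    have f1 := hstep (a - k) (b - j + e) hak (by omega)
      (by push_cast; linarith [(Nat.cast_nonneg e : (0 : ℝ) ≤ e)]) (by omega)
    refine le_trans ?_ f1
    exact_mod_cast ramsey_mono (Nat.le_succ _) le_rfl)
  have e1 : a - k + (k - i) = a - i := by omega
  have e2 : b - j + (j - i') = b - i' := by omega
  rw [e1] at c1
  rw [e2] at c2
  calc (ramsey (a - i) (b - i') : ℝ) ≤ C0 ^ (k - i) * ramsey (a - k) (b - i') := c1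
    _ ≤ C0 ^ (k - i) * (C0 ^ (j - i') * ramsey (a - k) (b - j)) :=
        mul_le_mul_of_nonneg_left c2 (pow_nonneg (by linarith) _)
    _ = _ := by ring

/-- The two densities. -/
lemma dens_add {V : Type} [Fintype V] [DecidableEq V] (G : SimpleGraph V) (v : V) :
    (Fintype.card V : ℝ) * (dens (col G true) univ v + dens (col Gᶜ true) univ v) =
      Fintype.card V - 1 := by
  classical
  have h1 := H68.Book.card_mul_dens (col G true) univ v
  have h2 := H68.Book.card_mul_dens (col Gᶜ true) univ v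
  rw [card_univ] at h1 h2
  rw [mul_add, h1, h2, ← sum_add_distrib]
  have h3 : ∀ w, col G true v w + col Gᶜ true v w = 1 - if w = v then (1 : ℝ) else 0 := by
    intro w
    unfold col
    by_cases hvw : w = v
    · subst hvw
      rw [ind_of_not (by simp), ind_of_not (by simp)]
      simp
    · by_cases hadj : G.Adj v w
      · rw [ind_of (by simp [hadj]), ind_of_not (by simp [hadj])]
        simp [hvw]
      · rw [ind_of_not (by simp [hadj]), ind_of (by simp [hadj, Ne.symm hvw])]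
        simp [hvw]
  simp only [h3]
  rw [sum_sub_distrib]
  simp

end Pool.Agent.H95.UP
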