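import Mathlib
import Pool.Agent.H95.UP.Asym

set_option autoImplicit false
set_option linter.unusedSectionVars false
set_option linter.unusedVariables false

/-!
Uniform directions for Ramsey numbers, part 8: assembly.
-/

namespace Pool.Agent.H95.UP

open Finset
open Pool.Agent.H68.Book
open Pool.Agent.H28.Ramsey

/-- Sizes: the richness threshold and the lower bound. -/
lemma sizes {η : ℝ} (hη : 0 < η) (hη1 : η ≤ 1) : ∃ tau : ℝ, 0 < tau ∧ tau ≤ 1 ∧ ∃ a0 : ℕ,
    1 ≤ a0 ∧ ∀ a b : ℕ, a0 ≤ a → η * a ≤ b → η * b ≤ a →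
      ∃ m0 N : ℝ, N = (ramsey a b : ℝ) - 1 ∧ 1 ≤ m0 ∧ m0 ^ 4 ≤ N ∧
        Real.exp (η / 8 * a) ≤ N ∧
        ∀ (V : Type) [Fintype V] [DecidableEq V] (G : SimpleGraph V) [DecidableRel G.Adj]
          [DecidableRel Gᶜ.Adj],
          (∀ S : Finset V, ¬ G.IsNClique a S) → (∀ S : Finset V, ¬ Gᶜ.IsNClique b S) →
          Rich G tau m0 ∧ Rich Gᶜ tau m0 := by
  obtain ⟨τ', hτ', K0, hK0⟩ := asymp (η / 8) (by positivity) (by linarith)
  refine ⟨min (τ' / 2) 1, by positivity, min_le_right _ _, max (max K0 1) ⌈16 / η⌉₊,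
    (le_max_right _ _).trans (le_max_left _ _), ?_⟩
  intro a b ha h1 h2
  have haK0 : K0 ≤ a := (le_max_left _ _).trans ((le_max_left _ _).trans ha)
  have ha16 : 16 / η ≤ a := by
    have : ⌈16 / η⌉₊ ≤ a := (le_max_right _ _).trans ha
    exact (Nat.le_ceil _).trans (by exact_mod_cast this)
  rw [div_le_iff₀ hη] at ha16
  have haR : (16 : ℝ) ≤ a := by nlinarith [(Nat.cast_nonneg a : (0 : ℝ) ≤ a)]
  set s := min a b with hs
  set K := max a b with hK
  set n1 := (s - 1) / 2 with hn1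
  set m := n1 / 2 with hm
  have hbR : (16 : ℝ) ≤ b := by linarith
  have hsa : η * a ≤ s := by
    rcases le_total a b with h | h
    · rw [hs, min_eq_left h]
      nlinarith
    · rw [hs, min_eq_right h]; exact h1
  have hsK : η * K ≤ s := by
    rcases le_total a b with h | h
    · rw [hs, hK, min_eq_left h, max_eq_right h]; exact h2
    · rw [hs, hK, min_eq_right h, max_eq_left h]; exact h1
  have hs16 : 16 ≤ s := by
    have : (16 : ℝ) ≤ s := by linarith
    exact_mod_cast this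
  have hlow : 2 ^ n1 < ramsey a b :=
    two_pow_le_ramsey a b s (by omega) (min_le_left _ _) (min_le_right _ _)
  have hlowR : (2 : ℝ) ^ n1 + 1 ≤ (ramsey a b : ℝ) := by
    have : 2 ^ n1 + 1 ≤ ramsey a b := hlow
    exact_mod_cast this
  have hKK0 : K0 ≤ K := haK0.trans (le_max_left _ _)
  have hmK : η / 8 * K ≤ m := by
    have e1 : s ≤ 8 * m := by omega
    have e2 : (s : ℝ) ≤ 8 * m := by exact_mod_cast e1
    linarith
  have has := hK0 K m hKK0 hmK
  set t := ⌊τ' * K⌋₊ with ht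
  refine ⟨(2 : ℝ) ^ (m / 2), (ramsey a b : ℝ) - 1, rfl, one_le_pow₀ (by norm_num), ?_, ?_, ?_⟩
  · calc ((2 : ℝ) ^ (m / 2)) ^ 4 = 2 ^ ((m / 2) * 4) := by rw [← pow_mul]
      _ ≤ 2 ^ n1 := pow_le_pow_right₀ (by norm_num) (by omega)
      _ ≤ _ := by linarith
  · have e1 : s ≤ 2 * n1 + 2 := by omega
    have e2 : (s : ℝ) ≤ 2 * n1 + 2 := by exact_mod_cast e1
    have e3 : Real.exp (η / 8 * a) ≤ (2 : ℝ) ^ n1 := by
      have e4 : (2 : ℝ) ^ n1 = Real.exp (n1 * Real.log 2) := by
        rw [Real.exp_nat_mul, Real.exp_log (by norm_num)]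
      rw [e4]
      apply Real.exp_le_exp.2
      have e5 := Real.log_two_gt_d9
      have e6 : (1 : ℝ) / 2 ≤ Real.log 2 := by linarith
      have e7 : (n1 : ℝ) * (1 / 2) ≤ n1 * Real.log 2 :=
        mul_le_mul_of_nonneg_left e6 (Nat.cast_nonneg _)
      linarith
    linarith
  · intro V _ _ G _ _ hG1 hG2
    have hG2' : ∀ S : Finset V, ¬ Gᶜᶜ.IsNClique a S := by
      rw [compl_compl]; exact hG1
    have haK : a ≤ K := le_max_left _ _
    have hbK : b ≤ K := le_max_right _ _
    have htfl : τ' * K ≤ t + 1 := (Nat.lt_floor_add_one _).le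
    have htau0 : (0 : ℝ) ≤ min (τ' / 2) 1 := by positivity
    have hsmallt : ∀ c : ℕ, c ≤ K → 2 * (c : ℝ) * min (τ' / 2) 1 ≤ t + 1 := by
      intro c hc
      have hcR : (c : ℝ) ≤ K := by exact_mod_cast hc
      calc 2 * (c : ℝ) * min (τ' / 2) 1 ≤ 2 * (K : ℝ) * (τ' / 2) := by
            apply mul_le_mul (by linarith) (min_le_left _ _) htau0 (by positivity)
        _ = τ' * K := by ring
        _ ≤ _ := htfl
    have hbound : ∀ c d : ℕ, c ≤ K → d ≤ K →
        ((2 * (((c + t).choose c + d) * ∑ i ∈ range (t + 1), d.choose i) : ℕ) : ℝ) <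
          (2 : ℝ) ^ (m / 2) := by
      intro c d hc hd
      have g1 : (c + t).choose c ≤ (K + t).choose t := by
        rw [Nat.choose_symm_add]
        exact Nat.choose_le_choose t (by omega)
      have g2 : ∑ i ∈ range (t + 1), d.choose i ≤ ∑ i ∈ range (t + 1), K.choose i :=
        sum_le_sum fun i _ => Nat.choose_le_choose i hd
      have g3 : 2 * (((c + t).choose c + d) * ∑ i ∈ range (t + 1), d.choose i) ≤
          8 * (((K + t).choose t + K) * ∑ i ∈ range (t + 1), K.choose i) := by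
        apply Nat.mul_le_mul (by norm_num)
        exact Nat.mul_le_mul (by omega) g2
      have g4 := lt_of_le_of_lt g3 has
      exact_mod_cast g4
    exact ⟨rich_of G hG1 hG2 htau0 (hsmallt b hbK) (hbound a b haK hbK),
      rich_of Gᶜ hG2 hG2' htau0 (hsmallt a haK) (hbound b a hbK haK)⟩

end Pool.Agent.H95.UP
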