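import Mathlib
import Pool.Agent.H95.UP.Asym

set_option autoImplicit false
set_option linter.unusedSectionVars false
set_option linter.unusedVariables false

/-!
Uniform directions for Ramsey numbers, part 9: numerical lemmas.
-/

namespace Pool.Agent.H95.UP

open Finset
open Pool.Agent.H68.Book
open Pool.Agent.H28.Ramsey

/-- The condition on small sets. -/
lemma small_cond {N R0 C0 m0 lam D x : ℝ} {d : ℕ} (hN : 1 < N) (hC0 : 1 < C0) (hm0 : 1 ≤ m0)
    (hm4 : m0 ^ 4 ≤ N) (hlam : lam = 2 * (d * Real.log C0) / Real.log N) (hd : 1 ≤ d)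
    (hlamlow : 1 / (D * x) ≤ lam) (hDx : 0 < D * x) (hpoly : (D * x) ^ 8 ≤ N)
    (hNR : N ≤ C0 ^ d * R0) (hR0 : 0 ≤ R0) :
    (m0 / lam ^ 2) ^ lam * N ≤ N ^ lam * R0 := by
  have hlogN : 0 < Real.log N := Real.log_pos hN
  have hlogC : 0 < Real.log C0 := Real.log_pos hC0
  have hdR : (1 : ℝ) ≤ d := by exact_mod_cast hd
  have hNpos : 0 < N := by linarith
  have hlam0 : 0 < lam := by rw [hlam]; positivity
  -- m0 / lam^2 ≤ N^(1/2)
  have h1 : m0 / lam ^ 2 ≤ N ^ (1 / 2 : ℝ) := by
    have e1 : 1 / lam ≤ D * x := by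
      rw [div_le_iff₀ hlam0]
      rw [div_le_iff₀ hDx] at hlamlow
      linarith
    have e2 : m0 ≤ N ^ (1 / 4 : ℝ) := by
      have : (m0 ^ 4) ^ (1 / 4 : ℝ) ≤ N ^ (1 / 4 : ℝ) :=
        Real.rpow_le_rpow (by positivity) hm4 (by norm_num)
      have e3 : (m0 ^ 4) ^ (1 / 4 : ℝ) = m0 := by
        rw [← Real.rpow_natCast m0 4, ← Real.rpow_mul (by linarith)]
        norm_num
      rwa [e3] at this
    have e3 : (D * x) ^ 2 ≤ N ^ (1 / 4 : ℝ) := by
      have : ((D * x) ^ 8) ^ (1 / 4 : ℝ) ≤ N ^ (1 / 4 : ℝ) :=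
        Real.rpow_le_rpow (by positivity) hpoly (by norm_num)
      have e3 : ((D * x) ^ 8) ^ (1 / 4 : ℝ) = (D * x) ^ 2 := by
        rw [← Real.rpow_natCast (D * x) 8, ← Real.rpow_mul hDx.le,
          ← Real.rpow_natCast (D * x) 2]
        norm_num
      rwa [e3] at this
    calc m0 / lam ^ 2 = m0 * (1 / lam) ^ 2 := by ring
      _ ≤ N ^ (1 / 4 : ℝ) * (D * x) ^ 2 := by
          apply mul_le_mul e2 _ (by positivity) (Real.rpow_nonneg hNpos.le _)
          exact pow_le_pow_left₀ (by positivity) e1 2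
      _ ≤ N ^ (1 / 4 : ℝ) * N ^ (1 / 4 : ℝ) :=
          mul_le_mul_of_nonneg_left e3 (Real.rpow_nonneg hNpos.le _)
      _ = N ^ (1 / 2 : ℝ) := by
          rw [← Real.rpow_add hNpos]
          norm_num
  have h2 : (m0 / lam ^ 2) ^ lam ≤ N ^ (lam / 2) := by
    calc (m0 / lam ^ 2) ^ lam ≤ (N ^ (1 / 2 : ℝ)) ^ lam :=
          Real.rpow_le_rpow (by positivity) h1 hlam0.le
      _ = N ^ (lam / 2) := by
          rw [← Real.rpow_mul hNpos.le]
          congr 1
          ring
  have h3 : C0 ^ d = N ^ (lam / 2) := by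
    rw [Real.rpow_def_of_pos hNpos, hlam]
    have : Real.log N * (2 * (d * Real.log C0) / Real.log N / 2) = d * Real.log C0 := by
      field_simp
    rw [this, Real.exp_nat_mul, Real.exp_log (by linarith)]
  have hNl : 0 ≤ N ^ (lam / 2) := Real.rpow_nonneg hNpos.le _
  calc (m0 / lam ^ 2) ^ lam * N ≤ N ^ (lam / 2) * (C0 ^ d * R0) :=
        mul_le_mul h2 hNR hNpos.le hNl
    _ = (N ^ (lam / 2) * N ^ (lam / 2)) * R0 := by rw [h3]; ring
    _ = N ^ lam * R0 := by
        rw [← Real.rpow_add hNpos]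
        congr 2
        ring

/-- From the moments of the degrees to the averages. -/
lemma rescale {V : Type} [Fintype V] [DecidableEq V] (G : SimpleGraph V) {k j : ℕ} {R0 E N : ℝ}
    (hN : N = Fintype.card V) (hN2 : 2 ≤ N) (hkj : 1 ≤ k + j)
    (h : ∑ v, dens (col G true) univ v ^ k * dens (col Gᶜ true) univ v ^ j ≤ R0 * Real.exp E)
    (hR0 : 0 ≤ R0) :
    (N + 1) * ((∑ v, (dens (col G true) univ v / (1 - 1 / N)) ^ k *
      (1 - dens (col G true) univ v / (1 - 1 / N)) ^ j) / N) ≤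
      R0 * Real.exp (E + 3 * (k + j) / N) := by
  have hNpos : 0 < N := by linarith
  set q : ℝ := 1 - 1 / N with hq
  have hinv : 1 / N ≤ 1 / 2 := one_div_le_one_div_of_le (by norm_num) hN2
  have hq0 : 0 < q := by rw [hq]; linarith
  have hterm : ∀ v, (dens (col G true) univ v / q) ^ k * (1 - dens (col G true) univ v / q) ^ j =
      (dens (col G true) univ v ^ k * dens (col Gᶜ true) univ v ^ j) * (1 / q) ^ (k + j) := by
    intro v
    have h1 := dens_add G v
    rw [← hN] at h1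
    have h2 : dens (col G true) univ v + dens (col Gᶜ true) univ v = q := by
      rw [hq]
      field_simp
      linarith
    have h3 : 1 - dens (col G true) univ v / q = dens (col Gᶜ true) univ v * (1 / q) := by
      rw [← h2] at hq0 ⊢
      field_simp
      ring
    rw [h3, pow_add, mul_pow, div_pow, one_div_pow, one_div_pow]
    field_simp
  have h1 : ∑ v, (dens (col G true) univ v / q) ^ k * (1 - dens (col G true) univ v / q) ^ j =
      (∑ v, dens (col G true) univ v ^ k * dens (col Gᶜ true) univ v ^ j) * (1 / q) ^ (k + j) := by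
    rw [sum_mul]
    exact sum_congr rfl fun v _ => hterm v
  rw [h1]
  have hqinv : 1 / q ≤ Real.exp (2 / N) := by
    have h4 := Real.add_one_le_exp (2 / N)
    refine le_trans ?_ h4
    rw [div_le_iff₀ hq0, hq]
    have : (2 / N + 1) * (1 - 1 / N) = 1 + (1 / N) * (1 - 2 * (1 / N)) := by ring
    rw [this]
    have h5 : 0 ≤ (1 / N) * (1 - 2 * (1 / N)) := mul_nonneg (by positivity) (by linarith)
    linarith
  have hqp : (1 / q) ^ (k + j) ≤ Real.exp (2 * (k + j) / N) := by
    calc (1 / q) ^ (k + j) ≤ (Real.exp (2 / N)) ^ (k + j) :=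
          pow_le_pow_left₀ (by positivity) hqinv _
      _ = Real.exp (2 * (k + j) / N) := by
          rw [← Real.exp_nat_mul]
          congr 1
          push_cast
          ring
  have hS0 : 0 ≤ ∑ v, dens (col G true) univ v ^ k * dens (col Gᶜ true) univ v ^ j :=
    sum_nonneg fun v _ => mul_nonneg (pow_nonneg (dens_nonneg (col_nonneg G true) _ _) _)
      (pow_nonneg (dens_nonneg (col_nonneg Gᶜ true) _ _) _)
  set S := ∑ v, dens (col G true) univ v ^ k * dens (col Gᶜ true) univ v ^ j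
  have hN1 : (N + 1) / N ≤ Real.exp (1 / N) := by
    have := Real.add_one_le_exp (1 / N)
    have e : (N + 1) / N = 1 / N + 1 := by
      field_simp
      ring
    rw [e]; exact this
  have hkjR : (1 : ℝ) ≤ k + j := by exact_mod_cast hkj
  calc (N + 1) * (S * (1 / q) ^ (k + j) / N) = ((N + 1) / N) * (S * (1 / q) ^ (k + j)) := by ring
    _ ≤ Real.exp (1 / N) * ((R0 * Real.exp E) * Real.exp (2 * (k + j) / N)) := by
        apply mul_le_mul hN1 _ (by positivity) (Real.exp_pos _).le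
        exact mul_le_mul h hqp (by positivity) (by positivity)
    _ = R0 * Real.exp (E + (1 / N + 2 * (k + j) / N)) := by
        rw [Real.exp_add, Real.exp_add]; ring
    _ ≤ R0 * Real.exp (E + 3 * (k + j) / N) := by
        apply mul_le_mul_of_nonneg_left _ hR0
        apply Real.exp_le_exp.2
        have : 1 / N ≤ (k + j) / N := div_le_div_of_nonneg_right hkjR hNpos.le
        have e : 3 * ((k : ℝ) + j) / N = (k + j) / N + 2 * (k + j) / N := by ring
        linarith

/-- The parameter `lam`. -/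
lemma lam_bounds {η C0 C2 K D N a y κ kj lam : ℝ} (hη : 0 < η) (hlogC : 1 / 2 ≤ Real.log C0)
    (hC2 : C2 = 16 * Real.log C0 / η) (hK : 9 ≤ K) (hκ : κ ≤ 1 / (4 * K ^ 2 * C2))
    (ha : 0 < a) (hkj : 1 ≤ kj) (hya : kj = y * a) (hyκ : y ≤ κ) (hD : 0 < D)
    (hlogN1 : η / 8 * a ≤ Real.log N) (hlogN2 : Real.log N ≤ D * a)
    (hlam : lam = 2 * (kj * Real.log C0) / Real.log N) :
    0 < lam ∧ 1 / (D * a) ≤ lam ∧ lam ≤ C2 * y ∧ K * Real.sqrt lam ≤ 1 / 2 := by
  have hlogNpos : 0 < Real.log N := lt_of_lt_of_le (by positivity) hlogN1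
  have hC2pos : 0 < C2 := by rw [hC2]; positivity
  have hlam0 : 0 < lam := by rw [hlam]; positivity
  have hypos : 0 < y := by
    by_contra h
    push Not at h
    nlinarith
  have hlamup : lam ≤ C2 * y := by
    rw [hlam, div_le_iff₀ hlogNpos]
    have e : C2 * y * (η / 8 * a) = 2 * (kj * Real.log C0) := by
      rw [hC2, hya]
      field_simp
      ring
    rw [← e]
    exact mul_le_mul_of_nonneg_left hlogN1 (by positivity)
  refine ⟨hlam0, ?_, hlamup, ?_⟩
  · rw [hlam]
    apply div_le_div₀ (by positivity) _ hlogNpos hlogN2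
    nlinarith
  · have g1 : lam ≤ 1 / (4 * K ^ 2) := by
      calc lam ≤ C2 * y := hlamup
        _ ≤ C2 * (1 / (4 * K ^ 2 * C2)) :=
            mul_le_mul_of_nonneg_left (hyκ.trans hκ) hC2pos.le
        _ = 1 / (4 * K ^ 2) := by field_simp
    have g2 : Real.sqrt lam ≤ 1 / (2 * K) := by
      rw [Real.sqrt_le_left (by positivity)]
      refine g1.trans (le_of_eq ?_)
      field_simp
      norm_num
    calc K * Real.sqrt lam ≤ K * (1 / (2 * K)) :=
          mul_le_mul_of_nonneg_left g2 (by linarith)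
      _ = 1 / 2 := by field_simp

/-- `1 / a` against the square root. -/
lemma inv_le_sqrt {a kj : ℝ} (ha : 1 ≤ a) (hkj : 1 ≤ kj) : 1 / a ≤ Real.sqrt (kj / a) := by
  apply Real.le_sqrt_of_sq_le
  have hapos : 0 < a := by linarith
  rw [div_pow, one_pow, div_le_div_iff₀ (by positivity) hapos]
  nlinarith

/-- The exponent. -/
lemma expo_bound {C2 K N a kj lam C C' : ℝ} (hC2 : 0 ≤ C2) (hK : 0 ≤ K) (ha : 1 ≤ a)
    (hkj : 1 ≤ kj) (hNa : a ≤ N) (hlam : lam ≤ C2 * (kj / a)) (hC' : 0 ≤ C')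
    (hC : C = C' + (3 + 2 * K * Real.sqrt C2)) :
    2 * (K * Real.sqrt lam) * kj + 3 * kj / N ≤ C * (kj * Real.sqrt (kj / a)) := by
  have hapos : 0 < a := by linarith
  set y := kj / a with hy
  have hy0 : 0 ≤ y := by positivity
  have g1 : Real.sqrt lam ≤ Real.sqrt C2 * Real.sqrt y := by
    rw [← Real.sqrt_mul hC2]
    exact Real.sqrt_le_sqrt hlam
  have g2 : 1 / N ≤ Real.sqrt y :=
    (one_div_le_one_div_of_le hapos hNa).trans (inv_le_sqrt ha hkj)
  have g5 : 2 * (K * Real.sqrt lam) * kj ≤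
      2 * K * Real.sqrt C2 * (kj * Real.sqrt y) := by
    calc 2 * (K * Real.sqrt lam) * kj ≤
          2 * (K * (Real.sqrt C2 * Real.sqrt y)) * kj := by
          apply mul_le_mul_of_nonneg_right _ (by linarith)
          apply mul_le_mul_of_nonneg_left _ (by norm_num)
          exact mul_le_mul_of_nonneg_left g1 hK
      _ = _ := by ring
  have g6 : 3 * kj / N ≤ 3 * (kj * Real.sqrt y) := by
    calc 3 * kj / N = 3 * kj * (1 / N) := by ring
      _ ≤ 3 * kj * Real.sqrt y := mul_le_mul_of_nonneg_left g2 (by linarith)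
      _ = _ := by ring
  have g8 : 0 ≤ C' * (kj * Real.sqrt y) := by positivity
  rw [hC]
  have g9 : (C' + (3 + 2 * K * Real.sqrt C2)) * (kj * Real.sqrt y) =
      C' * (kj * Real.sqrt y) + (3 * (kj * Real.sqrt y) +
        2 * K * Real.sqrt C2 * (kj * Real.sqrt y)) := by ring
  rw [g9]
  linarith

end Pool.Agent.H95.UP
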