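import Mathlib
import Pool.Agent.H95.UP.Main
import Pool.Agent.H95.UP.Num

set_option autoImplicit false
set_option linter.unusedSectionVars false
set_option linter.unusedVariables false

/-!
Uniform directions for Ramsey numbers, part 10: the mixture theorem.
-/

namespace Pool.Agent.H95.UP

open Finset
open Pool.Agent.H68.Book
open Pool.Agent.H28.Ramsey

/-- The main range, for a given colouring. -/
lemma main_range {η C0 C1 C2 K D κ tau m0 C C' q N : ℝ} {a b k j : ℕ} (hη : 0 < η)
    (htau : 0 < tau) (htau1 : tau ≤ 1) (hC02 : 2 ≤ C0) (hC01 : C1 ≤ C0)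
    (hlogC : 1 / 2 ≤ Real.log C0) (hC1 : ∀ k l : ℕ, 1 ≤ k → 1 ≤ l → η / 2 * k ≤ l →
      η / 2 * l ≤ k → (ramsey (k + 1) (l + 1) : ℝ) ≤ C1 * ramsey k l)
    (hK : K = 9 + 3 * Real.log (1 / tau) + C0 / 2) (hK9 : 9 ≤ K)
    (hC2 : C2 = 16 * Real.log C0 / η) (hκ : κ ≤ 1 / (4 * K ^ 2 * C2)) (hκη : κ ≤ η / 2)
    (hD1 : 1 ≤ D) (hC' : 0 ≤ C') (hC : C = C' + (3 + 2 * K * Real.sqrt C2))
    (ha : 1 ≤ a) (hb : 1 ≤ b) (h1 : η * a ≤ b) (h2 : η * b ≤ a) (hη1 : η ≤ 1)
    (hN : N = (ramsey a b : ℝ) - 1) (hN2 : 2 ≤ N) (hm01 : 1 ≤ m0) (hm04 : m0 ^ 4 ≤ N)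
    (hNexp : Real.exp (η / 8 * a) ≤ N) (hlogN2 : Real.log N ≤ D * a)
    (hpN : (D * a) ^ 8 ≤ N) (hNa : (a : ℝ) ≤ N) (hq : q = 1 - 1 / N)
    {V : Type} [Fintype V] [DecidableEq V] (G : SimpleGraph V) [DecidableRel G.Adj]
    [DecidableRel Gᶜ.Adj] (hcardN : N = Fintype.card V)
    (hG1 : ∀ S : Finset V, ¬ G.IsNClique a S) (hG2 : ∀ S : Finset V, ¬ Gᶜ.IsNClique b S)
    (hrich : Rich G tau m0) (hrich' : Rich Gᶜ tau m0)
    (hpos : 1 ≤ k + j) (hk : k < a) (hj : j < b) (hsm : (k : ℝ) + j ≤ κ * a) :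
    Real.exp (-(C * (((k : ℝ) + j) * Real.sqrt (((k : ℝ) + j) / a)))) * ramsey a b *
      ((∑ i, (dens (col G true) univ i / q) ^ k *
        (1 - dens (col G true) univ i / q) ^ j) / N) ≤ ramsey (a - k) (b - j) := by
  have haR : (1 : ℝ) ≤ a := by exact_mod_cast ha
  have hapos : (0 : ℝ) < a := by linarith
  have hkjR : (1 : ℝ) ≤ (k : ℝ) + j := by exact_mod_cast hpos
  have hNpos : 0 < N := by linarith
  have hka : (k : ℝ) ≤ a / 2 := by
    have g2 : (0 : ℝ) ≤ j := Nat.cast_nonneg _
    nlinarith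
  have hjb : (j : ℝ) ≤ b / 2 := by
    have g2 : (0 : ℝ) ≤ k := Nat.cast_nonneg _
    nlinarith
  have hlogN1 : η / 8 * a ≤ Real.log N := by
    rw [Real.le_log_iff_exp_le hNpos]
    exact hNexp
  have hkjcast : ((k + j : ℕ) : ℝ) = (k : ℝ) + j := by push_cast; rfl
  obtain ⟨hlam0, hlamlow, hlamup, hKlam⟩ := lam_bounds (lam := 2 * (((k : ℝ) + j) *
    Real.log C0) / Real.log N) hη hlogC hC2 hK9 hκ hapos hkjR
    (show (k : ℝ) + j = ((k : ℝ) + j) / a * a by field_simp)
    (by rw [div_le_iff₀ hapos]; exact hsm) (by linarith) hlogN1 hlogN2 rfl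
  have hR := ratios hη (by linarith : 1 ≤ C0) hC01 hC1 ha hb h1 h2 hka hjb
  have hR00 := hR 0 (Nat.zero_le _) 0 (Nat.zero_le _)
  simp only [Nat.sub_zero] at hR00
  rw [← pow_add] at hR00
  have hC2pos : 0 < C2 := by rw [hC2]; positivity
  have hexp := expo_bound (a := (a : ℝ)) (kj := (k : ℝ) + j) hC2pos.le (by linarith : 0 ≤ K) haR
    hkjR hNa hlamup hC' hC
  have hsmall := small_cond (N := N) (R0 := (ramsey (a - k) (b - j) : ℝ)) (C0 := C0)
    (m0 := m0) (lam := 2 * (((k : ℝ) + j) * Real.log C0) / Real.log N) (D := D) (x := (a : ℝ))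
    (d := k + j) (by linarith) (by linarith) hm01 hm04 (by rw [hkjcast]) hpos hlamlow
    (by positivity) hpN (by linarith) (Nat.cast_nonneg _)
  rw [hcardN] at hsmall
  rw [← hcardN] at hsmall
  have hcardpos : 0 < Fintype.card V := by
    have : (0 : ℝ) < Fintype.card V := by rw [← hcardN]; exact hNpos
    exact_mod_cast this
  rw [hK] at hKlam
  have hmix := mixed G hG1 hG2 htau htau1 (by linarith : 1 ≤ C0) (by linarith : 0 ≤ m0) hlam0
    hKlam hrich hrich' hk.le hj.le hR (by rw [← hcardN]; exact hsmall) hcardpos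
  have hres := rescale G (N := N) hcardN hN2 hpos hmix (Nat.cast_nonneg _)
  rw [← hq, ← hK] at hres
  have hRN : (ramsey a b : ℝ) = N + 1 := by linarith
  rw [hRN]
  set R0 : ℝ := (ramsey (a - k) (b - j) : ℝ) with hR0
  have hR0nn : 0 ≤ R0 := Nat.cast_nonneg _
  set Y := C * (((k : ℝ) + j) * Real.sqrt (((k : ℝ) + j) / a)) with hY
  set Sm := (∑ i, (dens (col G true) univ i / q) ^ k *
          (1 - dens (col G true) univ i / q) ^ j) / N with hSm
  calc Real.exp (-Y) * (N + 1) * Sm = Real.exp (-Y) * ((N + 1) * Sm) := by ring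
    _ ≤ Real.exp (-Y) * (R0 * Real.exp (2 * (K * Real.sqrt (2 * (((k : ℝ) + j) *
        Real.log C0) / Real.log N)) * ((k : ℝ) + j) + 3 * (k + j) / N)) :=
        mul_le_mul_of_nonneg_left hres (Real.exp_pos _).le
    _ ≤ Real.exp (-Y) * (R0 * Real.exp Y) := by
        apply mul_le_mul_of_nonneg_left _ (Real.exp_pos _).le
        apply mul_le_mul_of_nonneg_left _ hR0nn
        exact Real.exp_le_exp.2 hexp
    _ = R0 := by
        rw [mul_comm R0, ← mul_assoc, ← Real.exp_add]
        simp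

/-- **The mixture theorem**, `η ≤ 1`. -/
theorem mixture_one {η : ℝ} (hη : 0 < η) (hη1 : η ≤ 1) : ∃ C : ℝ, 0 < C ∧
    ∀ a b : ℕ, 1 ≤ a → 1 ≤ b → η * a ≤ b → η * b ≤ a →
      ∃ (n : ℕ) (x : Fin n → ℝ), 0 < n ∧ (∀ i, 0 ≤ x i ∧ x i ≤ 1) ∧
        ∀ k j : ℕ, k < a → j < b →
          Real.exp (-(C * ((k + j) * Real.sqrt ((k + j) / a)))) * ramsey a b *
            ((∑ i, x i ^ k * (1 - x i) ^ j) / n) ≤ ramsey (a - k) (b - j) := by
  obtain ⟨tau, htau, htau1, a0, ha01, hsizes⟩ := sizes hη hη1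
  obtain ⟨C1, hC1⟩ := main (η / 2) (by positivity)
  set C0 : ℝ := max C1 2 with hC0def
  have hC02 : 2 ≤ C0 := le_max_right _ _
  have hC01 : C1 ≤ C0 := le_max_left _ _
  set L := Real.log (1 / tau) with hL
  have hL0 : 0 ≤ L := by
    apply Real.log_nonneg
    rw [le_div_iff₀ htau]; linarith
  set K := 9 + 3 * L + C0 / 2 with hK
  have hK9 : 9 ≤ K := by rw [hK]; linarith
  set D := 1 + 1 / η with hD
  have hD1 : 1 ≤ D := by
    have : 0 < 1 / η := by positivity
    linarith
  have hlogC : 1 / 2 ≤ Real.log C0 := by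
    have h1 := Real.log_two_gt_d9
    have h2 : Real.log 2 ≤ Real.log C0 := Real.log_le_log (by norm_num) hC02
    linarith
  set C2 := 16 * Real.log C0 / η with hC2
  have hC2pos : 0 < C2 := by positivity
  obtain ⟨x0, hx01, hpoly⟩ := poly_exp (B := D) (c := η / 8) (by linarith) (by positivity)
  set κ := min (η / 2) (1 / (4 * K ^ 2 * C2)) with hκ
  have hκpos : 0 < κ := by positivity
  set a1 : ℕ := max a0 ⌈x0⌉₊ with ha1
  have ha1pos : 1 ≤ a1 := ha01.trans (le_max_left _ _)
  have ha1R : (1 : ℝ) ≤ a1 := by exact_mod_cast ha1pos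
  set C : ℝ := D * a1 ^ 2 + D / (κ * Real.sqrt κ) + (3 + 2 * K * Real.sqrt C2) with hC
  have hCpos : 0 < C := by positivity
  refine ⟨C, hCpos, ?_⟩
  intro a b ha hb h1 h2
  have haR : (1 : ℝ) ≤ a := by exact_mod_cast ha
  have hapos : (0 : ℝ) < a := by linarith
  have hRexp := ramsey_le_exp hη h2
  rw [← hD] at hRexp
  -- the case of no steps
  have hzero : ∀ (n : ℕ) (x : Fin n → ℝ), 0 < n →
      Real.exp (-(C * (((0 : ℕ) + (0 : ℕ)) * Real.sqrt (((0 : ℕ) + (0 : ℕ)) / a)))) * ramsey a b *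
            ((∑ i, x i ^ 0 * (1 - x i) ^ 0) / n) ≤ ramsey (a - 0) (b - 0) := by
    intro n x hn
    have hnR : (0 : ℝ) < n := by exact_mod_cast hn
    simp only [pow_zero, mul_one, sum_const, card_univ, Fintype.card_fin, nsmul_eq_mul,
      Nat.cast_zero, add_zero, zero_mul, mul_zero, neg_zero, Real.exp_zero, one_mul, Nat.sub_zero]
    rw [div_self hnR.ne', mul_one]
  by_cases hsm : a < a1
  · -- bounded parameters
    refine ⟨1, fun _ => 1 / 2, one_pos, fun _ => by norm_num, ?_⟩
    intro k j hk hj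
    rcases Nat.eq_zero_or_pos (k + j) with h0 | hpos
    · have hk0 : k = 0 := by omega
      have hj0 : j = 0 := by omega
      subst hk0 hj0
      exact hzero 1 _ one_pos
    · apply triv one_pos (fun _ => by norm_num) hRexp
      have hkjR : (1 : ℝ) ≤ (k : ℝ) + j := by exact_mod_cast hpos
      have haa1 : (a : ℝ) ≤ a1 := by exact_mod_cast hsm.le
      have g1 : 1 / (a : ℝ) ≤ Real.sqrt (((k : ℝ) + j) / a) := by
        apply Real.le_sqrt_of_sq_le
        rw [div_pow, one_pow, div_le_div_iff₀ (by positivity) hapos]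
        nlinarith
      calc D * a ≤ (D * a1 ^ 2) * (1 * (1 / a)) := by
            rw [one_mul, mul_one_div, le_div_iff₀ hapos]
            have : (a : ℝ) * a ≤ a1 ^ 2 := by nlinarith
            nlinarith
        _ ≤ C * (((k : ℝ) + j) * Real.sqrt (((k : ℝ) + j) / a)) := by
            apply mul_le_mul _ _ (by positivity) hCpos.le
            · rw [hC]
              have : 0 ≤ D / (κ * Real.sqrt κ) := by positivity
              have : 0 ≤ 3 + 2 * K * Real.sqrt C2 := by positivity
              linarith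
            · exact mul_le_mul hkjR g1 (by positivity) (by positivity)
  · push Not at hsm
    have ha0 : a0 ≤ a := (le_max_left _ _).trans hsm
    have hx0a : x0 ≤ a := by
      have : ⌈x0⌉₊ ≤ a := (le_max_right _ _).trans hsm
      exact (Nat.le_ceil _).trans (by exact_mod_cast this)
    obtain ⟨m0, N, hN, hm01, hm04, hNexp, hrichall⟩ := hsizes a b ha0 h1 h2
    have hpa := hpoly a hx0a
    have hDa : 0 < D * a := by positivity
    have hpN : (D * a) ^ 8 ≤ N := hpa.trans hNexp
    have hNa : (a : ℝ) ≤ N := by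
      have g1 : (a : ℝ) ≤ D * a := by nlinarith
      have g2 : D * a ≤ (D * a) ^ 8 := by
        have : 1 ≤ D * a := by nlinarith
        exact le_self_pow₀ this (by norm_num)
      linarith
    have hN2 : 2 ≤ N := by
      have g1 : D * a ≥ 2 := by
        have : 1 ≤ 1 / η := by rw [le_div_iff₀ hη]; linarith
        have : 2 ≤ D := by rw [hD]; linarith
        nlinarith
      have g2 : D * a ≤ (D * a) ^ 8 := le_self_pow₀ (by linarith) (by norm_num)
      linarith
    have hRN : (ramsey a b : ℝ) = N + 1 := by linarith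
    have hRge : 2 ≤ ramsey a b - 1 := by
      have g1 : (3 : ℝ) ≤ ramsey a b := by linarith
      have g2 : 3 ≤ ramsey a b := by exact_mod_cast g1
      omega
    obtain ⟨G, hG1, hG2⟩ := exists_extremal a b (by omega)
    classical
    have hcardN : N = Fintype.card (Fin (ramsey a b - 1)) := by
      rw [Fintype.card_fin, Nat.cast_sub (ramsey_pos a b), Nat.cast_one]
      exact hN
    obtain ⟨hrich, hrich'⟩ := hrichall (Fin (ramsey a b - 1)) G hG1 hG2
    have hNpos : 0 < N := by linarith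
    set q : ℝ := 1 - 1 / N with hq
    have hinv : 1 / N ≤ 1 / 2 := one_div_le_one_div_of_le (by norm_num) hN2
    have hq0 : 0 < q := by rw [hq]; linarith
    have hx : ∀ v : Fin (ramsey a b - 1), 0 ≤ dens (col G true) univ v / q ∧
        dens (col G true) univ v / q ≤ 1 := by
      intro v
      have g1 := dens_add G v
      rw [← hcardN] at g1
      have g2 : dens (col G true) univ v + dens (col Gᶜ true) univ v = q := by
        rw [hq]
        field_simp
        linarith
      have g3 := dens_nonneg (col_nonneg G true) univ v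
      have g4 := dens_nonneg (col_nonneg Gᶜ true) univ v
      refine ⟨div_nonneg g3 hq0.le, ?_⟩
      rw [div_le_one hq0]
      linarith
    refine ⟨ramsey a b - 1, fun v => dens (col G true) univ v / q, by omega, hx, ?_⟩
    intro k j hk hj
    rcases Nat.eq_zero_or_pos (k + j) with h0 | hpos
    · have hk0 : k = 0 := by omega
      have hj0 : j = 0 := by omega
      subst hk0 hj0
      exact hzero _ _ (by omega)
    have hkjR : (1 : ℝ) ≤ (k : ℝ) + j := by exact_mod_cast hpos
    set y : ℝ := ((k : ℝ) + j) / a with hy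
    have hypos : 0 < y := by positivity
    have hya : (k : ℝ) + j = y * a := by rw [hy]; field_simp
    by_cases hbig : κ * a ≤ (k : ℝ) + j
    · -- many steps
      apply triv (by omega) hx hRexp
      have g1 : κ ≤ y := by rw [hy, le_div_iff₀ hapos]; exact hbig
      have g2 : Real.sqrt κ ≤ Real.sqrt y := Real.sqrt_le_sqrt g1
      have hsκ : 0 < Real.sqrt κ := Real.sqrt_pos.2 hκpos
      calc D * a = (D / (κ * Real.sqrt κ)) * ((κ * a) * Real.sqrt κ) := by field_simp
        _ ≤ C * (((k : ℝ) + j) * Real.sqrt y) := by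
            apply mul_le_mul _ _ (by positivity) hCpos.le
            · rw [hC]
              have : 0 ≤ D * (a1 : ℝ) ^ 2 := by positivity
              have : 0 ≤ 3 + 2 * K * Real.sqrt C2 := by positivity
              linarith
            · exact mul_le_mul hbig g2 hsκ.le (by positivity)
    · -- the main range
      push Not at hbig
      have hlogN2 : Real.log N ≤ D * a := by
        rw [Real.log_le_iff_le_exp hNpos]
        linarith
      have hNcast : ((ramsey a b - 1 : ℕ) : ℝ) = N := by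
        rw [hcardN, Fintype.card_fin]
      rw [hNcast]
      exact main_range hη htau htau1 hC02 hC01 hlogC hC1 hK hK9 hC2 (min_le_right _ _)
        (min_le_left _ _) hD1 (by positivity) hC ha hb h1 h2 hη1 hN hN2 hm01 hm04 hNexp hlogN2
        hpN hNa hq G hcardN hG1 hG2 hrich hrich' hpos hk hj hbig.le

end Pool.Agent.H95.UP
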