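import Mathlib
import Pool.Agent.H95.UP.Final

set_option autoImplicit false
set_option linter.unusedSectionVars false
set_option linter.unusedVariables false

/-!
Uniform directions for Ramsey numbers, part 11: corollaries of the mixture theorem.
-/

namespace Pool.Agent.H95.UP

open Finset
open Pool.Agent.H28.Ramsey

/-- **The mixture theorem.** -/
theorem mixture {η : ℝ} (hη : 0 < η) : ∃ C : ℝ, 0 < C ∧
    ∀ a b : ℕ, 1 ≤ a → 1 ≤ b → η * a ≤ b → η * b ≤ a →
      ∃ (n : ℕ) (x : Fin n → ℝ), 0 < n ∧ (∀ i, 0 ≤ x i ∧ x i ≤ 1) ∧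
        ∀ k j : ℕ, k < a → j < b →
          Real.exp (-(C * ((k + j) * Real.sqrt ((k + j) / a)))) * ramsey a b *
            ((∑ i, x i ^ k * (1 - x i) ^ j) / n) ≤ ramsey (a - k) (b - j) := by
  obtain ⟨C, hC, h⟩ := mixture_one (η := min η 1) (lt_min hη one_pos) (min_le_right _ _)
  refine ⟨C, hC, fun a b ha hb h1 h2 => h a b ha hb ?_ ?_⟩
  · exact (mul_le_mul_of_nonneg_right (min_le_left _ _) (Nat.cast_nonneg _)).trans h1
  · exact (mul_le_mul_of_nonneg_right (min_le_left _ _) (Nat.cast_nonneg _)).trans h2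

/-- The power mean inequality. -/
lemma mean_pow {n : ℕ} (hn : 0 < n) {x : Fin n → ℝ} (hx : ∀ i, 0 ≤ x i) (k : ℕ) :
    ((∑ i, x i) / n) ^ k ≤ (∑ i, x i ^ k) / n := by
  have hnR : (0 : ℝ) < n := by exact_mod_cast hn
  have h := Real.pow_arith_mean_le_arith_mean_pow (univ : Finset (Fin n))
    (fun _ => 1 / (n : ℝ)) x (fun _ _ => by positivity) (by
      rw [sum_const, card_univ, Fintype.card_fin, nsmul_eq_mul]; field_simp)
    (fun i _ => hx i) k
  rw [← mul_sum, ← mul_sum] at h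
  calc ((∑ i, x i) / n) ^ k = (1 / (n : ℝ) * ∑ i, x i) ^ k := by ring
    _ ≤ 1 / (n : ℝ) * ∑ i, x i ^ k := h
    _ = _ := by ring

/-- **One direction for all numbers of steps.** -/
theorem pure {η : ℝ} (hη : 0 < η) : ∃ C : ℝ, 0 < C ∧
    ∀ a b : ℕ, 1 ≤ a → 1 ≤ b → η * a ≤ b → η * b ≤ a →
      ∃ p : ℝ, 0 ≤ p ∧ p ≤ 1 ∧
        (∀ k : ℕ, k < a → Real.exp (-(C * (k * Real.sqrt (k / a)))) * ramsey a b * p ^ k ≤
          ramsey (a - k) b) ∧
        (∀ j : ℕ, j < b → Real.exp (-(C * (j * Real.sqrt (j / a)))) * ramsey a b * (1 - p) ^ j ≤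
          ramsey a (b - j)) := by
  obtain ⟨C, hC, h⟩ := mixture hη
  refine ⟨C, hC, fun a b ha hb h1 h2 => ?_⟩
  obtain ⟨n, x, hn, hx, hmix⟩ := h a b ha hb h1 h2
  have hnR : (0 : ℝ) < n := by exact_mod_cast hn
  refine ⟨(∑ i, x i) / n, ?_, ?_, ?_, ?_⟩
  · exact div_nonneg (sum_nonneg fun i _ => (hx i).1) hnR.le
  · rw [div_le_one hnR]
    calc ∑ i, x i ≤ ∑ _i : Fin n, (1 : ℝ) := sum_le_sum fun i _ => (hx i).2
      _ = n := by simp
  · intro k hk
    have h3 := hmix k 0 hk (by omega)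
    simp only [pow_zero, mul_one, Nat.cast_zero, add_zero, Nat.sub_zero] at h3
    refine le_trans ?_ h3
    exact mul_le_mul_of_nonneg_left (mean_pow hn (fun i => (hx i).1) k)
      (mul_nonneg (Real.exp_pos _).le (Nat.cast_nonneg _))
  · intro j hj
    have h3 := hmix 0 j (by omega) hj
    simp only [pow_zero, one_mul, Nat.cast_zero, zero_add, Nat.sub_zero] at h3
    refine le_trans ?_ h3
    have h4 := mean_pow hn (x := fun i => 1 - x i) (fun i => by linarith [(hx i).2]) j
    have h5 : (∑ i, (1 - x i)) / n = 1 - (∑ i, x i) / n := by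
      rw [sum_sub_distrib]
      simp only [sum_const, card_univ, Fintype.card_fin, nsmul_eq_mul, mul_one]
      field_simp
    rw [h5] at h4
    exact mul_le_mul_of_nonneg_left h4 (mul_nonneg (Real.exp_pos _).le (Nat.cast_nonneg _))

lemma ramsey_swap_le (a b : ℕ) : ramsey a b ≤ ramsey b a := by
  apply Nat.sInf_le
  refine ⟨ramsey_pos b a, fun G => ?_⟩
  rcases (ramsey_spec b a).2 Gᶜ with ⟨S, hS⟩ | ⟨S, hS⟩
  · exact Or.inr ⟨S, hS⟩
  · rw [compl_compl] at hS
    exact Or.inl ⟨S, hS⟩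

lemma ramsey_swap (a b : ℕ) : ramsey a b = ramsey b a :=
  le_antisymm (ramsey_swap_le a b) (ramsey_swap_le b a)

/-- **The diagonal case.** -/
theorem diagonal : ∃ C : ℝ, 0 < C ∧ ∀ l k : ℕ, k < l →
    (ramsey l l : ℝ) ≤ 2 ^ k * Real.exp (C * (k * Real.sqrt (k / l))) * ramsey (l - k) l := by
  obtain ⟨C, hC, h⟩ := pure (η := 1) one_pos
  refine ⟨C, hC, fun l k hk => ?_⟩
  obtain ⟨p, hp0, hp1, hr, hb⟩ := h l l (by omega) (by omega) (by simp) (by simp)
  have hR0 : (0 : ℝ) ≤ ramsey l l := Nat.cast_nonneg _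
  have key : ∀ y : ℝ, 1 / 2 ≤ y →
      Real.exp (-(C * (k * Real.sqrt (k / l)))) * ramsey l l * y ^ k ≤ ramsey (l - k) l →
      (ramsey l l : ℝ) ≤ 2 ^ k * Real.exp (C * (k * Real.sqrt (k / l))) * ramsey (l - k) l := by
    intro y hy h1
    have h2 : (1 : ℝ) ≤ 2 ^ k * y ^ k := by
      rw [← mul_pow]
      exact one_le_pow₀ (by linarith)
    have h3 : Real.exp (C * (k * Real.sqrt (k / l))) *
        Real.exp (-(C * (k * Real.sqrt (k / l)))) = 1 := by
      rw [← Real.exp_add]; simp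
    calc (ramsey l l : ℝ) = (ramsey l l : ℝ) * 1 := (mul_one _).symm
      _ ≤ (ramsey l l : ℝ) * (2 ^ k * y ^ k) := mul_le_mul_of_nonneg_left h2 hR0
      _ = 2 ^ k * Real.exp (C * (k * Real.sqrt (k / l))) *
          (Real.exp (-(C * (k * Real.sqrt (k / l)))) * ramsey l l * y ^ k) := by
          linear_combination (-(2 ^ k * y ^ k * (ramsey l l : ℝ))) * h3
      _ ≤ _ := mul_le_mul_of_nonneg_left h1 (by positivity)
  rcases le_total (1 / 2) p with hp | hp
  · exact key p hp (hr k hk)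
  · have h1 := hb k hk
    rw [ramsey_swap l (l - k)] at h1
    exact key (1 - p) (by linarith) h1

/-- **The additive form.** -/
theorem additive {η : ℝ} (hη : 0 < η) : ∃ C : ℝ, 0 < C ∧
    ∀ a b : ℕ, η * a ≤ b → η * b ≤ a → ∀ k j : ℕ, 1 ≤ k → k < a → 1 ≤ j → j < b →
      Real.exp (-(C * Real.sqrt (max (k : ℝ) j / a))) ≤
        ((ramsey (a - k) b : ℝ) / ramsey a b) ^ (1 / (k : ℝ)) +
        ((ramsey a (b - j) : ℝ) / ramsey a b) ^ (1 / (j : ℝ)) := by
  obtain ⟨C, hC, h⟩ := pure hη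
  refine ⟨C, hC, fun a b h1 h2 k j hk hka hj hjb => ?_⟩
  obtain ⟨p, hp0, hp1, hr, hb⟩ := h a b (by omega) (by omega) h1 h2
  have hapos : (0 : ℝ) < a := by
    have : 0 < a := by omega
    exact_mod_cast this
  have hRpos : (0 : ℝ) < ramsey a b := by exact_mod_cast ramsey_pos a b
  have key : ∀ (m : ℕ) (y Q : ℝ), 1 ≤ m → (m : ℝ) ≤ max (k : ℝ) j → 0 ≤ y → 0 ≤ Q →
      Real.exp (-(C * (m * Real.sqrt (m / a)))) * ramsey a b * y ^ m ≤ Q →
      y * Real.exp (-(C * Real.sqrt (max (k : ℝ) j / a))) ≤ (Q / ramsey a b) ^ (1 / (m : ℝ)) := by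
    intro m y Q hm hmax hy hQ hle
    have hmR : (0 : ℝ) < m := by exact_mod_cast hm
    have g1 : (y * Real.exp (-(C * Real.sqrt ((m : ℝ) / a)))) ^ m ≤ Q / ramsey a b := by
      rw [le_div_iff₀ hRpos, mul_pow, ← Real.exp_nat_mul]
      refine le_trans (le_of_eq ?_) hle
      have : (m : ℝ) * -(C * Real.sqrt ((m : ℝ) / a)) = -(C * (m * Real.sqrt (m / a))) := by ring
      rw [this]
      ring
    have g2 : y * Real.exp (-(C * Real.sqrt ((m : ℝ) / a))) ≤ (Q / ramsey a b) ^ (1 / (m : ℝ)) := by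
      have g3 := Real.rpow_le_rpow (by positivity) g1 (show 0 ≤ 1 / (m : ℝ) by positivity)
      rw [← Real.rpow_natCast, ← Real.rpow_mul (by positivity)] at g3
      have : (m : ℝ) * (1 / m) = 1 := by field_simp
      rwa [this, Real.rpow_one] at g3
    refine le_trans ?_ g2
    apply mul_le_mul_of_nonneg_left _ hy
    apply Real.exp_le_exp.2
    have g4 : Real.sqrt ((m : ℝ) / a) ≤ Real.sqrt (max (k : ℝ) j / a) :=
      Real.sqrt_le_sqrt (div_le_div_of_nonneg_right hmax hapos.le)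
    have := mul_le_mul_of_nonneg_left g4 hC.le
    linarith
  have f1 := key k p _ hk (le_max_left _ _) hp0 (Nat.cast_nonneg _) (hr k hka)
  have f2 := key j (1 - p) _ hj (le_max_right _ _) (by linarith) (Nat.cast_nonneg _) (hb j hjb)
  linarith

/-- **Three diagonal Ramsey numbers.** -/
theorem diagonal_mixed : ∃ C : ℝ, 0 < C ∧ ∀ (l k : ℕ) (T : ℝ), k < l → 1 / 2 ≤ T → T ≤ 1 →
    4 * Real.exp (C * (k * Real.sqrt (k / l))) * ramsey (l - k) l ≤ T ^ k * ramsey l l →
    Real.exp (-(C * (2 * k * Real.sqrt (2 * k / l)))) * ramsey l l * ((T * (1 - T)) ^ k / 2) ≤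
      ramsey (l - k) (l - k) := by
  obtain ⟨C, hC, h⟩ := mixture (η := 1) one_pos
  refine ⟨C, hC, fun l k T hk hT hT1 hyp => ?_⟩
  obtain ⟨n, x, hn, hx, hmix⟩ := h l l (by omega) (by omega) (by simp) (by simp)
  have hnR : (0 : ℝ) < n := by exact_mod_cast hn
  have hRpos : (0 : ℝ) < ramsey l l := by exact_mod_cast ramsey_pos l l
  have hTpos : 0 < T := by linarith
  set E := Real.exp (C * (k * Real.sqrt (k / l))) with hE
  have hEpos : 0 < E := Real.exp_pos _
  have hEinv : Real.exp (-(C * (k * Real.sqrt (k / l)))) = 1 / E := by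
    rw [hE, Real.exp_neg, one_div]
  -- the exceptional indices
  have exc : ∀ y : Fin n → ℝ, (∀ i, 0 ≤ y i ∧ y i ≤ 1) →
      1 / E * ramsey l l * ((∑ i, y i ^ k) / n) ≤ ramsey (l - k) l →
      ((univ.filter (fun i => T < y i)).card : ℝ) ≤ n / 4 := by
    intro y hy hle
    have g1 : ((univ.filter (fun i => T < y i)).card : ℝ) * T ^ k ≤ ∑ i, y i ^ k := by
      calc ((univ.filter (fun i => T < y i)).card : ℝ) * T ^ k =
            ∑ _i ∈ univ.filter (fun i => T < y i), T ^ k := by rw [sum_const, nsmul_eq_mul]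
        _ ≤ ∑ i ∈ univ.filter (fun i => T < y i), y i ^ k := by
            refine sum_le_sum fun i hi => ?_
            rw [mem_filter] at hi
            exact pow_le_pow_left₀ hTpos.le hi.2.le k
        _ ≤ _ := sum_le_sum_of_subset_of_nonneg (subset_univ _) fun i _ _ =>
            pow_nonneg (hy i).1 _
    set A : ℝ := ((univ.filter (fun i => T < y i)).card : ℝ)
    have g2 : 1 / E * ramsey l l * (A * T ^ k / n) ≤ ramsey (l - k) l := by
      refine le_trans ?_ hle
      apply mul_le_mul_of_nonneg_left _ (by positivity)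
      exact div_le_div_of_nonneg_right g1 hnR.le
    have g3 : 4 * E * (1 / E * ramsey l l * (A * T ^ k / n)) ≤ T ^ k * ramsey l l :=
      (mul_le_mul_of_nonneg_left g2 (by positivity)).trans hyp
    have g4 : 4 * E * (1 / E * ramsey l l * (A * T ^ k / n)) =
        (T ^ k * ramsey l l) * (4 * A / n) := by
      field_simp
    rw [g4] at g3
    have g5 : 0 < T ^ k * (ramsey l l : ℝ) := by positivity
    have g6 : 4 * A / n ≤ 1 := by
      by_contra hcon
      push Not at hcon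
      have := mul_lt_mul_of_pos_left hcon g5
      linarith
    rw [div_le_one hnR] at g6
    linarith
  have e1 := exc x hx (by
    have := hmix k 0 hk (by omega)
    simp only [pow_zero, mul_one, Nat.cast_zero, add_zero, Nat.sub_zero] at this
    rw [hEinv] at this
    exact this)
  have e2 := exc (fun i => 1 - x i) (fun i => ⟨by linarith [(hx i).2], by linarith [(hx i).1]⟩) (by
    have := hmix 0 k (by omega) hk
    simp only [pow_zero, one_mul, Nat.cast_zero, zero_add, Nat.sub_zero] at this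
    rw [hEinv, ramsey_swap l (l - k)] at this
    exact this)
  set A1 := univ.filter (fun i => T < x i)
  set A2 := univ.filter (fun i => T < 1 - x i)
  set B := univ.filter (fun i => 1 - T ≤ x i ∧ x i ≤ T) with hB
  have hcov : n ≤ A1.card + A2.card + B.card := by
    have h1 : (univ : Finset (Fin n)) ⊆ (A1 ∪ A2) ∪ B := by
      intro i _
      rw [mem_union, mem_union, mem_filter, mem_filter, mem_filter]
      by_cases g1 : T < x i
      · exact Or.inl (Or.inl ⟨mem_univ _, g1⟩)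
      · by_cases g2 : T < 1 - x i
        · exact Or.inl (Or.inr ⟨mem_univ _, g2⟩)
        · exact Or.inr ⟨mem_univ _, by linarith, by linarith⟩
    have h2 := (card_le_card h1).trans (card_union_le _ _)
    have h3 := card_union_le A1 A2
    rw [card_univ, Fintype.card_fin] at h2
    omega
  have hcovR : (n : ℝ) ≤ A1.card + A2.card + B.card := by exact_mod_cast hcov
  have hBcard : (n : ℝ) / 2 ≤ B.card := by linarith
  have hTT : 0 ≤ T * (1 - T) := mul_nonneg hTpos.le (by linarith)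
  have hsum : (n : ℝ) / 2 * (T * (1 - T)) ^ k ≤ ∑ i, x i ^ k * (1 - x i) ^ k := by
    calc (n : ℝ) / 2 * (T * (1 - T)) ^ k ≤ B.card * (T * (1 - T)) ^ k :=
          mul_le_mul_of_nonneg_right hBcard (pow_nonneg hTT _)
      _ = ∑ _i ∈ B, (T * (1 - T)) ^ k := by rw [sum_const, nsmul_eq_mul]
      _ ≤ ∑ i ∈ B, x i ^ k * (1 - x i) ^ k := by
          refine sum_le_sum fun i hi => ?_
          rw [hB, mem_filter] at hi
          rw [← mul_pow]
          apply pow_le_pow_left₀ hTT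
          nlinarith [hi.2.1, hi.2.2, mul_nonneg (show 0 ≤ T - x i by linarith [hi.2.2])
            (show 0 ≤ x i - (1 - T) by linarith [hi.2.1])]
      _ ≤ _ := sum_le_sum_of_subset_of_nonneg (subset_univ _) fun i _ _ =>
          mul_nonneg (pow_nonneg (hx i).1 _) (pow_nonneg (by linarith [(hx i).2]) _)
  have hm := hmix k k hk hk
  have e3 : ((k : ℝ) + k) = 2 * k := by ring
  rw [e3] at hm
  refine le_trans ?_ hm
  apply mul_le_mul_of_nonneg_left _ (mul_nonneg (Real.exp_pos _).le hRpos.le)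
  rw [le_div_iff₀ hnR]
  linarith

end Pool.Agent.H95.UP
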